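import Pool.Agent.Lib.MP_ef6aaf_al.Defs

/-!
# Words inducing Haar measure on unitary groups: working definitions

Norms of matrices are operator norms (`open scoped Matrix.Norms.L2Operator`); `U n` carries the induced metric,
`dist u v = ‖(u : Mn n) - v‖` (`Subtype.dist_eq`, `dist_eq_norm`), and its topology is (definitionally) the usual one.
-/

open MeasureTheory Metric
open scoped Matrix.Norms.L2Operator

namespace Pool.Agent.Lib.MP_ef6aaf_al

instance instFDHn (n : ℕ) : FiniteDimensional ℝ (Hn n) := by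
  have : FiniteDimensional ℝ (selfAdjoint.submodule ℝ (Mn n)) := inferInstance
  exact this

instance instCompactU (n : ℕ) : CompactSpace (U n) := by
  have hc : IsClosed {A : Mn n | A ∈ Matrix.unitaryGroup (Fin n) ℂ} := by
    exact isClosed_unitary
  have hb : Bornology.IsBounded {A : Mn n | A ∈ Matrix.unitaryGroup (Fin n) ℂ} := by
    rw [isBounded_iff_forall_norm_le]
    refine ⟨1, fun A hA => ?_⟩
    cases subsingleton_or_nontrivial (Mn n)
    · rw [Subsingleton.elim A 0, norm_zero]; exact zero_le_one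
    · rw [CStarRing.norm_of_mem_unitary hA]
  have : ProperSpace (Mn n) := inferInstance
  exact isCompact_iff_compactSpace.mp (Metric.isCompact_of_isClosed_isBounded hc hb)

/-- the dimension of `U(n)` (it is `n²`, but this is never used) -/
noncomputable def D (n : ℕ) : ℕ := Module.finrank ℝ (Hn n)

/-- `ex a = exp(i a)` -/
noncomputable def ex {n : ℕ} (a : Hn n) : U n := selfAdjoint.expUnitary a

/-- `ev e w = ∑ e_i · (exponent sum of the letter i in w)` -/
def ev (e : Fin 2 → ℤ) (w : FreeGroup (Fin 2)) : ℤ :=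
  Multiplicative.toAdd (FreeGroup.lift (fun i => Multiplicative.ofAdd (e i)) w)

/-- the chart at the pair `f`: conjugation by `ex B`, twist by `e^{i t e_i}`, right neighbour `ex (a_i) f_i` -/
noncomputable def chart {n : ℕ} (f : Fin 2 → U n) (e : Fin 2 → ℤ) (B : Hn n) (t : ℝ) (a : Fin 2 → Hn n) :
    Fin 2 → U n :=
  fun i => ex B * (ex ((t * (e i : ℝ)) • (1 : Hn n)) * (ex (a i) * f i)) * (ex B)⁻¹

/-- the value of the word `w` at the pair `ex (a_i) f_i`, as a matrix -/
noncomputable def wm {n : ℕ} (f : Fin 2 → U n) (w : FreeGroup (Fin 2)) (a : Fin 2 → Hn n) : Mn n :=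
  ((FreeGroup.lift (fun i => ex (a i) * f i) w : U n) : Mn n)

/-- `δ` is a cocycle on the free group with values in the Hermitian matrices, for the adjoint action via `f` -/
def IsAdCocycle {n : ℕ} (f : Fin 2 → U n) (δ : FreeGroup (Fin 2) → Hn n) : Prop :=
  ∀ g h, δ (g * h) = δ g + cj (FreeGroup.lift f g) (δ h)

/-- the Hermitian matrices commuting with the pair `f` -/
noncomputable def Z0 {n : ℕ} (f : Fin 2 → U n) : Submodule ℝ (Hn n) where
  carrier := {a | ∀ i, cj (f i) a = a}
  add_mem' ha hb i := by rw [map_add, ha i, hb i]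
  zero_mem' i := map_zero _
  smul_mem' t a ha i := by rw [map_smul, ha i]

/-- the kernel of the derivative of the word map at `f` -/
noncomputable def kerW {n : ℕ} (f : Fin 2 → U n) (w : FreeGroup (Fin 2)) : Submodule ℝ (Fin 2 → Hn n) :=
  LinearMap.ker (fderiv ℝ (wm f w) 0 : (Fin 2 → Hn n) →L[ℝ] Mn n).toLinearMap

/-- the pairs near which the word is close to `1`, and (if `e_0 = 0`) the first entry stays away from `1` -/
def Near {n : ℕ} (w : FreeGroup (Fin 2)) (f : Fin 2 → U n) (e : Fin 2 → ℤ) (ε : ℝ) : Set (Fin 2 → U n) :=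
  {q | ‖((FreeGroup.lift q w : U n) : Mn n) - 1‖ ≤ ε ∧
    (e 0 = 0 → ‖(f 0 : Mn n) - 1‖ / 2 ≤ ‖(q 0 : Mn n) - 1‖)}

/-- every invariant subspace is trivial -/
def IsIrr {Γ : Type*} [Group Γ] {k : ℕ} (ρ : Γ →* U k) : Prop :=
  ∀ W : Submodule ℂ (Fin k → ℂ), (∀ g, ∀ x ∈ W, (ρ g : Mn k).mulVec x ∈ W) → W = ⊥ ∨ W = ⊤

/-- the block matrix `(α, r; b, M)` -/
def blk {m : ℕ} (α : ℂ) (r b : Fin m → ℂ) (M : Mn m) : Mn (m + 1) :=
  Matrix.of (Fin.cons (Fin.cons α r) (fun i => Fin.cons (b i) (M i)))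

/-- Laurent polynomial action: `T^k` acts as `h ↦ y^k h y^{-k}` -/
noncomputable def act {n : ℕ} (y : U n) (p : LaurentPolynomial ℤ) (h : Mn n) : Mn n :=
  p.coeff.sum fun k c => (c : ℂ) • (((y ^ k : U n) : Mn n) * h * ((y ^ (-k) : U n) : Mn n))

/-- exponent sum of the letter `0` -/
def e0 (w : FreeGroup (Fin 2)) : ℤ := ev ![1, 0] w

/-- exponent sum of the letter `1` -/
def e1 (w : FreeGroup (Fin 2)) : ℤ := ev ![0, 1] w

/-- `F g` is the Fox derivative of `g` with respect to the letter `0`, with letter `0 ↦ 1`, letter `1 ↦ T` -/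
def IsFox (F : FreeGroup (Fin 2) → LaurentPolynomial ℤ) : Prop :=
  F (FreeGroup.of 0) = 1 ∧ F (FreeGroup.of 1) = 0 ∧
    ∀ g h, F (g * h) = F g + LaurentPolynomial.T (e1 g) * F h

end Pool.Agent.Lib.MP_ef6aaf_al
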