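import Pool.Agent.Lib.MP_ef6aaf_al.DefsAd
import Pool.Agent.Lib.MP_ef6aaf_al.Base

namespace Pool.Agent.Lib.MP_ef6aaf_al

private noncomputable def tr_val (n : ℕ) : Hn n →ₗ[ℝ] Mn n where
  toFun a := (a : Mn n)
  map_add' _ _ := rfl
  map_smul' _ _ := rfl

private noncomputable def tr_pi (Γ : Type) (n : ℕ) : (Γ → Hn n) →ₗ[ℝ] (Γ → Mn n) where
  toFun δ := fun g => (δ g : Mn n)
  map_add' _ _ := rfl
  map_smul' _ _ := rfl

private lemma tr_val_inj (n : ℕ) : Function.Injective (tr_val n) := fun _ _ h => Subtype.ext h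

private lemma tr_pi_inj (Γ : Type) (n : ℕ) : Function.Injective (tr_pi Γ n) :=
  fun _ _ h => funext fun g => Subtype.ext (congrFun h g)

private lemma tr_cj {n : ℕ} (g : U n) (a : Hn n) : ((cj g a : Hn n) : Mn n) = (g : Mn n) * a * star (g : Mn n) := rfl

private lemma tr_Z {Γ : Type} [Group Γ] {n : ℕ} (ρ : Γ →* U n) : (AdZ1 ρ).map (tr_pi Γ n) = adZ ρ := by
  ext δ
  constructor
  · rintro ⟨d, hd, rfl⟩
    refine ⟨fun g => (d g).2, fun g h => ?_⟩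
    exact congrArg (fun a : Hn n => (a : Mn n)) (hd g h)
  · rintro ⟨h1, h2⟩
    refine ⟨fun g => ⟨δ g, h1 g⟩, fun g h => ?_, rfl⟩
    apply Subtype.ext
    exact h2 g h

private lemma tr_B {Γ : Type} [Group Γ] {n : ℕ} (ρ : Γ →* U n) : (AdB1 ρ).map (tr_pi Γ n) = adB ρ := by
  ext δ
  constructor
  · rintro ⟨d, ⟨a, rfl⟩, rfl⟩
    exact ⟨a, a.2, fun g => rfl⟩
  · rintro ⟨A, hA, h2⟩
    refine ⟨_, ⟨⟨A, hA⟩, rfl⟩, ?_⟩
    funext g
    rw [h2 g]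
    rfl

private lemma tr_H {Γ : Type} [Group Γ] {n : ℕ} (ρ : Γ →* U n) : (AdH0 ρ).map (tr_val n) = adH ρ := by
  ext A
  constructor
  · rintro ⟨a, ha, rfl⟩
    refine ⟨a.2, fun g => ?_⟩
    have h1 : (ρ g : Mn n) * (a : Mn n) * star (ρ g : Mn n) = a := congrArg (fun a : Hn n => (a : Mn n)) (ha g)
    have h2 : star (ρ g : Mn n) * (ρ g : Mn n) = 1 := Unitary.coe_star_mul_self (ρ g)
    change (ρ g : Mn n) * (a : Mn n) = (a : Mn n) * (ρ g : Mn n)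
    calc (ρ g : Mn n) * (a : Mn n) = (ρ g : Mn n) * (a : Mn n) * (star (ρ g : Mn n) * (ρ g : Mn n)) := by rw [h2, mul_one]
      _ = ((ρ g : Mn n) * (a : Mn n) * star (ρ g : Mn n)) * (ρ g : Mn n) := by noncomm_ring
      _ = _ := by rw [h1]
  · rintro ⟨h1, h2⟩
    refine ⟨⟨A, h1⟩, fun g => ?_, rfl⟩
    apply Subtype.ext
    rw [tr_cj]
    change (ρ g : Mn n) * A * star (ρ g : Mn n) = A
    rw [h2 g, mul_assoc]
    rw [show (ρ g : Mn n) * star (ρ g : Mn n) = 1 from Unitary.coe_mul_star_self (ρ g), mul_one]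

private lemma tr_le {Γ : Type} [Group Γ] {n : ℕ} (ρ : Γ →* U n) : AdB1 ρ ≤ AdZ1 ρ := by
  rintro _ ⟨a, rfl⟩ g h
  apply Subtype.ext
  change ((ρ (g * h) : U n) : Mn n) * a * star ((ρ (g * h) : U n) : Mn n) - a =
    ((ρ g : Mn n) * a * star (ρ g : Mn n) - a) +
      (ρ g : Mn n) * ((ρ h : Mn n) * a * star (ρ h : Mn n) - a) * star (ρ g : Mn n)
  rw [map_mul]
  change ((ρ g : Mn n) * (ρ h : Mn n)) * a * star ((ρ g : Mn n) * (ρ h : Mn n)) - a = _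
  rw [star_mul]
  noncomm_ring

theorem ad_trans {Γ : Type} [Group Γ] {n : ℕ} (ρ : Γ →* U n)
    (h : Module.rank ℝ (AdH1 ρ) < 2 * Module.rank ℝ (AdH0 ρ)) : AdSmall ρ := by
  have hZ : Module.rank ℝ (adZ ρ) = Module.rank ℝ (AdZ1 ρ) := by
    rw [← tr_Z]
    exact (Submodule.equivMapOfInjective _ (tr_pi_inj Γ n) (AdZ1 ρ)).rank_eq.symm
  have hB : Module.rank ℝ (adB ρ) = Module.rank ℝ (AdB1 ρ) := by
    rw [← tr_B]
    exact (Submodule.equivMapOfInjective _ (tr_pi_inj Γ n) (AdB1 ρ)).rank_eq.symm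
  have hH : Module.rank ℝ (adH ρ) = Module.rank ℝ (AdH0 ρ) := by
    rw [← tr_H]
    exact (Submodule.equivMapOfInjective _ (tr_val_inj n) (AdH0 ρ)).rank_eq.symm
  unfold AdSmall
  rw [hZ, hB, hH]
  have h1 := Submodule.rank_quotient_add_rank ((AdB1 ρ).submoduleOf (AdZ1 ρ))
  have h2 : Module.rank ℝ ((AdB1 ρ).submoduleOf (AdZ1 ρ)) = Module.rank ℝ (AdB1 ρ) :=
    (Submodule.submoduleOfEquivOfLe (tr_le ρ)).rank_eq
  rw [h2] at h1
  have hfin : Module.rank ℝ (AdB1 ρ) < Cardinal.aleph0 := by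
    have : Module.Finite ℝ (AdB1 ρ) := by
      unfold AdB1
      infer_instance
    exact Module.rank_lt_aleph0 ℝ _
  rw [← h1, add_comm]
  exact (Cardinal.add_lt_add_iff_of_left_lt_aleph0 hfin).mpr h

end Pool.Agent.Lib.MP_ef6aaf_al
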