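import Pool.Agent.Lib.MP_ef6aaf_al.P.exmu
import Pool.Agent.Lib.MP_ef6aaf_al.P.fub
import Pool.Agent.Lib.MP_ef6aaf_al.P.antilip
import Pool.Agent.Lib.MP_ef6aaf_al.P.inv
import Pool.Agent.Lib.MP_ef6aaf_al.P.exder
import Pool.Agent.Lib.MP_ef6aaf_al.P.up
import Pool.Agent.Lib.MP_ef6aaf_al.P.low
import Pool.Agent.Lib.MP_ef6aaf_al.P.cder
import Pool.Agent.Lib.MP_ef6aaf_al.P.box
import Pool.Agent.Lib.MP_ef6aaf_al.P.quad
import Pool.Agent.Lib.MP_ef6aaf_al.P.wsm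
import Pool.Agent.Lib.MP_ef6aaf_al.P.evmul
import Pool.Agent.Lib.MP_ef6aaf_al.P.wchart
import Pool.Agent.Lib.MP_ef6aaf_al.P.wlip
import Pool.Agent.Lib.MP_ef6aaf_al.P.clo
import Pool.Agent.Lib.MP_ef6aaf_al.P.core
import Pool.Agent.Lib.MP_ef6aaf_al.P.linalg
import Pool.Agent.Lib.MP_ef6aaf_al.P.wder
import Pool.Agent.Lib.MP_ef6aaf_al.P.theta
import Pool.Agent.Lib.MP_ef6aaf_al.P.GC
import Pool.Agent.Lib.MP_ef6aaf_al.P.expo
import Pool.Agent.Lib.MP_ef6aaf_al.P.blkmul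
import Pool.Agent.Lib.MP_ef6aaf_al.P.blkrep
import Pool.Agent.Lib.MP_ef6aaf_al.P.schur
import Pool.Agent.Lib.MP_ef6aaf_al.P.blkcoc
import Pool.Agent.Lib.MP_ef6aaf_al.P.count
import Pool.Agent.Lib.MP_ef6aaf_al.P.irr
import Pool.Agent.Lib.MP_ef6aaf_al.P.onb
import Pool.Agent.Lib.MP_ef6aaf_al.P.red
import Pool.Agent.Lib.MP_ef6aaf_al.P.b1
import Pool.Agent.Lib.MP_ef6aaf_al.P.shap
import Pool.Agent.Lib.MP_ef6aaf_al.P.fin
import Pool.Agent.Lib.MP_ef6aaf_al.P.m1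

/-! Assembly of the first theorem. -/

namespace Pool.Agent.Lib.MP_ef6aaf_al

theorem a_m1_exmu : S_exmu := p_exmu
theorem a_m1_fub : S_fub := p_fub
theorem a_m1_antilip : S_antilip := p_antilip
theorem a_m1_inv : S_inv := p_inv
theorem a_m1_exder : S_exder := p_exder
theorem a_m1_up : S_up := p_up a_m1_fub a_m1_antilip a_m1_inv a_m1_exder
theorem a_m1_low : S_low := p_low a_m1_inv a_m1_exder
theorem a_m1_cder : S_cder := p_cder a_m1_exder
theorem a_m1_box : S_box := p_box a_m1_antilip a_m1_cder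
theorem a_m1_quad : S_quad := p_quad
theorem a_m1_wsm : S_wsm := p_wsm a_m1_exder
theorem a_m1_evmul : S_evmul := p_evmul
theorem a_m1_wchart : S_wchart := p_wchart a_m1_evmul
theorem a_m1_wlip : S_wlip := p_wlip
theorem a_m1_clo : S_clo := p_clo a_m1_quad a_m1_wsm a_m1_wchart a_m1_wlip a_m1_exder
theorem a_m1_core : S_core := p_core a_m1_fub a_m1_inv a_m1_low a_m1_box a_m1_clo
theorem a_m1_linalg : S_linalg := p_linalg
theorem a_m1_wder : S_wder := p_wder a_m1_exder a_m1_wsm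
theorem a_m1_theta : S_theta := p_theta a_m1_wder a_m1_evmul
theorem a_m1_GC : S_GC := p_GC a_m1_exmu a_m1_up a_m1_core a_m1_linalg a_m1_theta
theorem a_m1_expo : S_expo := p_expo a_m1_exmu
theorem a_m1_blkmul : S_blkmul := p_blkmul
theorem a_m1_blkrep : S_blkrep := p_blkrep a_m1_blkmul
theorem a_m1_schur : S_schur := p_schur a_m1_blkmul
theorem a_m1_blkcoc : S_blkcoc := p_blkcoc a_m1_blkmul a_m1_evmul
theorem a_m1_count : S_count := p_count a_m1_wder a_m1_blkmul a_m1_blkcoc a_m1_evmul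
theorem a_m1_irr : S_irr := p_irr a_m1_GC a_m1_expo a_m1_blkmul a_m1_blkrep a_m1_schur a_m1_count a_m1_evmul
theorem a_m1_onb : S_onb := p_onb
theorem a_m1_red : S_red := p_red a_m1_onb
theorem a_m1_b1 : S_b1 := p_b1
theorem a_m1_shap : S_shap := p_shap
theorem a_m1_fin : S_fin := p_fin a_m1_shap
theorem a_m1_m1 : S_m1 := p_m1 a_m1_irr a_m1_red a_m1_expo a_m1_b1 a_m1_fin

end Pool.Agent.Lib.MP_ef6aaf_al
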