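import Pool.Agent.Lib.MP_ef6aaf_al.P.exmu
import Pool.Agent.Lib.MP_ef6aaf_al.P.fub
import Pool.Agent.Lib.MP_ef6aaf_al.P.antilip
import Pool.Agent.Lib.MP_ef6aaf_al.P.inv
import Pool.Agent.Lib.MP_ef6aaf_al.P.exder
import Pool.Agent.Lib.MP_ef6aaf_al.P.up
import Pool.Agent.Lib.MP_ef6aaf_al.P.low
import Pool.Agent.Lib.MP_ef6aaf_al.P.cder
import Pool.Agent.Lib.MP_ef6aaf_al.P.box
import Pool.Agent.Lib.MP_ef6aaf_al.P.quad
import Pool.Agent.Lib.MP_ef6aaf_al.P.wsm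
import Pool.Agent.Lib.MP_ef6aaf_al.P.evmul
import Pool.Agent.Lib.MP_ef6aaf_al.P.wchart
import Pool.Agent.Lib.MP_ef6aaf_al.P.wlip
import Pool.Agent.Lib.MP_ef6aaf_al.P.clo
import Pool.Agent.Lib.MP_ef6aaf_al.P.core
import Pool.Agent.Lib.MP_ef6aaf_al.P.linalg
import Pool.Agent.Lib.MP_ef6aaf_al.P.wder
import Pool.Agent.Lib.MP_ef6aaf_al.P.theta
import Pool.Agent.Lib.MP_ef6aaf_al.P.GC
import Pool.Agent.Lib.MP_ef6aaf_al.P.expo
import Pool.Agent.Lib.MP_ef6aaf_al.P.ad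

/-! Assembly of the second theorem. -/

namespace Pool.Agent.Lib.MP_ef6aaf_al

theorem a_ad_exmu : S_exmu := p_exmu
theorem a_ad_fub : S_fub := p_fub
theorem a_ad_antilip : S_antilip := p_antilip
theorem a_ad_inv : S_inv := p_inv
theorem a_ad_exder : S_exder := p_exder
theorem a_ad_up : S_up := p_up a_ad_fub a_ad_antilip a_ad_inv a_ad_exder
theorem a_ad_low : S_low := p_low a_ad_inv a_ad_exder
theorem a_ad_cder : S_cder := p_cder a_ad_exder
theorem a_ad_box : S_box := p_box a_ad_antilip a_ad_cder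
theorem a_ad_quad : S_quad := p_quad
theorem a_ad_wsm : S_wsm := p_wsm a_ad_exder
theorem a_ad_evmul : S_evmul := p_evmul
theorem a_ad_wchart : S_wchart := p_wchart a_ad_evmul
theorem a_ad_wlip : S_wlip := p_wlip
theorem a_ad_clo : S_clo := p_clo a_ad_quad a_ad_wsm a_ad_wchart a_ad_wlip a_ad_exder
theorem a_ad_core : S_core := p_core a_ad_fub a_ad_inv a_ad_low a_ad_box a_ad_clo
theorem a_ad_linalg : S_linalg := p_linalg
theorem a_ad_wder : S_wder := p_wder a_ad_exder a_ad_wsm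
theorem a_ad_theta : S_theta := p_theta a_ad_wder a_ad_evmul
theorem a_ad_GC : S_GC := p_GC a_ad_exmu a_ad_up a_ad_core a_ad_linalg a_ad_theta
theorem a_ad_expo : S_expo := p_expo a_ad_exmu
theorem a_ad_ad : S_ad := p_ad a_ad_GC a_ad_expo a_ad_evmul a_ad_wder

end Pool.Agent.Lib.MP_ef6aaf_al
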