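import Pool.Agent.Lib.MP_ef6aaf_al.P.exmu
import Pool.Agent.Lib.MP_ef6aaf_al.P.expo
import Pool.Agent.Lib.MP_ef6aaf_al.P.evmul
import Pool.Agent.Lib.MP_ef6aaf_al.P.move
import Pool.Agent.Lib.MP_ef6aaf_al.P.norm
import Pool.Agent.Lib.MP_ef6aaf_al.P.fox
import Pool.Agent.Lib.MP_ef6aaf_al.P.foxp
import Pool.Agent.Lib.MP_ef6aaf_al.P.lau
import Pool.Agent.Lib.MP_ef6aaf_al.P.aff
import Pool.Agent.Lib.MP_ef6aaf_al.P.alex
import Pool.Agent.Lib.MP_ef6aaf_al.P.act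
import Pool.Agent.Lib.MP_ef6aaf_al.P.expd
import Pool.Agent.Lib.MP_ef6aaf_al.P.near1
import Pool.Agent.Lib.MP_ef6aaf_al.P.fub
import Pool.Agent.Lib.MP_ef6aaf_al.P.antilip
import Pool.Agent.Lib.MP_ef6aaf_al.P.inv
import Pool.Agent.Lib.MP_ef6aaf_al.P.exder
import Pool.Agent.Lib.MP_ef6aaf_al.P.up
import Pool.Agent.Lib.MP_ef6aaf_al.P.low
import Pool.Agent.Lib.MP_ef6aaf_al.P.cder
import Pool.Agent.Lib.MP_ef6aaf_al.P.box
import Pool.Agent.Lib.MP_ef6aaf_al.P.quad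
import Pool.Agent.Lib.MP_ef6aaf_al.P.wsm
import Pool.Agent.Lib.MP_ef6aaf_al.P.wchart
import Pool.Agent.Lib.MP_ef6aaf_al.P.wlip
import Pool.Agent.Lib.MP_ef6aaf_al.P.clo
import Pool.Agent.Lib.MP_ef6aaf_al.P.core
import Pool.Agent.Lib.MP_ef6aaf_al.P.linalg
import Pool.Agent.Lib.MP_ef6aaf_al.P.wder
import Pool.Agent.Lib.MP_ef6aaf_al.P.theta
import Pool.Agent.Lib.MP_ef6aaf_al.P.dec
import Pool.Agent.Lib.MP_ef6aaf_al.P.mass
import Pool.Agent.Lib.MP_ef6aaf_al.P.irrz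
import Pool.Agent.Lib.MP_ef6aaf_al.P.abirr
import Pool.Agent.Lib.MP_ef6aaf_al.P.ne1
import Pool.Agent.Lib.MP_ef6aaf_al.P.loc
import Pool.Agent.Lib.MP_ef6aaf_al.P.onb
import Pool.Agent.Lib.MP_ef6aaf_al.P.nonab
import Pool.Agent.Lib.MP_ef6aaf_al.P.cay
import Pool.Agent.Lib.MP_ef6aaf_al.P.cyc
import Pool.Agent.Lib.MP_ef6aaf_al.P.m3

/-! Assembly of the third theorem. -/

namespace Pool.Agent.Lib.MP_ef6aaf_al

theorem a_m3_exmu : S_exmu := p_exmu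
theorem a_m3_expo : S_expo := p_expo a_m3_exmu
theorem a_m3_evmul : S_evmul := p_evmul
theorem a_m3_move : S_move := p_move a_m3_evmul
theorem a_m3_norm : S_norm := p_norm a_m3_move
theorem a_m3_fox : S_fox := p_fox a_m3_evmul
theorem a_m3_foxp : S_foxp := p_foxp a_m3_evmul
theorem a_m3_lau : S_lau := p_lau
theorem a_m3_aff : S_aff := p_aff a_m3_evmul
theorem a_m3_alex : S_alex := p_alex a_m3_foxp a_m3_lau a_m3_aff
theorem a_m3_act : S_act := p_act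
theorem a_m3_expd : S_expd := p_expd a_m3_foxp a_m3_act a_m3_evmul
theorem a_m3_near1 : S_near1 := p_near1 a_m3_act a_m3_expd
theorem a_m3_fub : S_fub := p_fub
theorem a_m3_antilip : S_antilip := p_antilip
theorem a_m3_inv : S_inv := p_inv
theorem a_m3_exder : S_exder := p_exder
theorem a_m3_up : S_up := p_up a_m3_fub a_m3_antilip a_m3_inv a_m3_exder
theorem a_m3_low : S_low := p_low a_m3_inv a_m3_exder
theorem a_m3_cder : S_cder := p_cder a_m3_exder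
theorem a_m3_box : S_box := p_box a_m3_antilip a_m3_cder
theorem a_m3_quad : S_quad := p_quad
theorem a_m3_wsm : S_wsm := p_wsm a_m3_exder
theorem a_m3_wchart : S_wchart := p_wchart a_m3_evmul
theorem a_m3_wlip : S_wlip := p_wlip
theorem a_m3_clo : S_clo := p_clo a_m3_quad a_m3_wsm a_m3_wchart a_m3_wlip a_m3_exder
theorem a_m3_core : S_core := p_core a_m3_fub a_m3_inv a_m3_low a_m3_box a_m3_clo
theorem a_m3_linalg : S_linalg := p_linalg
theorem a_m3_wder : S_wder := p_wder a_m3_exder a_m3_wsm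
theorem a_m3_theta : S_theta := p_theta a_m3_wder a_m3_evmul
theorem a_m3_dec : S_dec := p_dec
theorem a_m3_mass : S_mass := p_mass a_m3_exmu a_m3_up a_m3_low a_m3_core a_m3_linalg a_m3_theta a_m3_dec
theorem a_m3_irrz : S_irrz := p_irrz
theorem a_m3_abirr : S_abirr := p_abirr
theorem a_m3_ne1 : S_ne1 := p_ne1 a_m3_abirr
theorem a_m3_loc : S_loc := p_loc a_m3_expo a_m3_norm a_m3_fox a_m3_alex a_m3_near1 a_m3_mass a_m3_irrz a_m3_ne1
theorem a_m3_onb : S_onb := p_onb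
theorem a_m3_nonab : S_nonab := p_nonab a_m3_onb
theorem a_m3_cay : S_cay := p_cay
theorem a_m3_cyc : S_cyc := p_cyc a_m3_evmul
theorem a_m3_m3 : S_m3 := p_m3 a_m3_loc a_m3_nonab a_m3_cay a_m3_expo a_m3_norm a_m3_fox a_m3_foxp a_m3_alex a_m3_cyc

end Pool.Agent.Lib.MP_ef6aaf_al
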