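import Mathlib

/-!
# Words inducing Haar measure on unitary groups (MP_ef6aaf_al), definitions of the statements

Only words in two letters are treated.  `G w` is the one-relator group `⟨x, y | w⟩`.
-/

open MeasureTheory

namespace Pool.Agent.Lib.MP_ef6aaf_al

/-- The unitary group `U(n)`. -/
abbrev U (n : ℕ) := Matrix.unitaryGroup (Fin n) ℂ

/-- The word `w` in two letters induces Haar measure on `U(n)`: the value of `w` at two independent Haar
distributed unitary matrices is Haar distributed (same form as in the frozen statement). -/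
def HaarOn (w : FreeGroup (Fin 2)) (n : ℕ) : Prop :=
  ∀ [MeasurableSpace (U n)] [BorelSpace (U n)] (μ : Measure (U n)) [IsProbabilityMeasure μ]
    [μ.IsMulLeftInvariant],
    Measure.map (fun f : Fin 2 → U n => FreeGroup.lift f w) (Measure.pi fun _ => μ) = μ

/-- The one-relator group `⟨x, y | w⟩`. -/
abbrev G (w : FreeGroup (Fin 2)) := FreeGroup (Fin 2) ⧸ Subgroup.normalClosure {w}

/-- `b` is a 1-cocycle for the representation `ρ` on `ℂ^k`: `x ↦ ρ(g) x + b(g)` is an action by isometries. -/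
def IsCocycle {Γ : Type*} [Group Γ] {k : ℕ} (ρ : Γ →* U k) (b : Γ → Fin k → ℂ) : Prop :=
  ∀ g h : Γ, b (g * h) = b g + (ρ g : Matrix (Fin k) (Fin k) ℂ).mulVec (b h)

/-- `v` is fixed by all `ρ(g)`. -/
def IsFixed {Γ : Type*} [Group Γ] {k : ℕ} (ρ : Γ →* U k) (v : Fin k → ℂ) : Prop :=
  ∀ g : Γ, (ρ g : Matrix (Fin k) (Fin k) ℂ).mulVec v = v

/-- `b` is a coboundary: the affine action `x ↦ ρ(g) x + b(g)` has the fixed point `-v`. -/
def IsCobound {Γ : Type*} [Group Γ] {k : ℕ} (ρ : Γ →* U k) (b : Γ → Fin k → ℂ) : Prop :=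
  ∃ v : Fin k → ℂ, ∀ g : Γ, b g = (ρ g : Matrix (Fin k) (Fin k) ℂ).mulVec v - v

/-- First theorem, conclusion: (1) every unitary representation of `G w` of dimension at most `N` without nonzero
fixed vector has vanishing first cohomology; (2) every subgroup of `G w` of finite index at most `N + 1` has first
Betti number at most one. -/
def Rigid (w : FreeGroup (Fin 2)) (N : ℕ) : Prop :=
  (∀ k ≤ N, ∀ ρ : G w →* U k, (∀ v, IsFixed ρ v → v = 0) →
    ∀ b : G w → Fin k → ℂ, IsCocycle ρ b → IsCobound ρ b) ∧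
  ∀ H : Subgroup (G w), H.index ≠ 0 → H.index ≤ N + 1 → Module.rank ℝ (Additive H →+ ℝ) ≤ 1

/-- All complex matrices. -/
abbrev Mn (n : ℕ) := Matrix (Fin n) (Fin n) ℂ

/-- The real vector space of Hermitian matrices. -/
abbrev Hn (n : ℕ) := selfAdjoint (Mn n)

/-- The adjoint action: `cj g a = g a g⁻¹`. -/
noncomputable def cj {n : ℕ} (g : U n) : Hn n →ₗ[ℝ] Hn n where
  toFun a := ⟨(g : Mn n) * a * star (g : Mn n), a.2.conjugate _⟩
  map_add' a b := by ext1; simp [mul_add, add_mul]
  map_smul' t a := by ext1; simp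

/-- The 1-cocycles of the adjoint action on the Hermitian matrices. -/
noncomputable def AdZ1 {Γ : Type*} [Group Γ] {n : ℕ} (ρ : Γ →* U n) : Submodule ℝ (Γ → Hn n) where
  carrier := {δ | ∀ g h, δ (g * h) = δ g + cj (ρ g) (δ h)}
  add_mem' {a b} ha hb g h := by
    rw [Pi.add_apply, Pi.add_apply, Pi.add_apply, ha g h, hb g h, map_add]; abel
  zero_mem' g h := by simp
  smul_mem' t a ha g h := by
    rw [Pi.smul_apply, Pi.smul_apply, Pi.smul_apply, ha g h, map_smul, smul_add]

/-- The 1-coboundaries of the adjoint action. -/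
noncomputable def AdB1 {Γ : Type*} [Group Γ] {n : ℕ} (ρ : Γ →* U n) : Submodule ℝ (Γ → Hn n) :=
  LinearMap.range (LinearMap.pi fun g : Γ => cj (ρ g) - LinearMap.id)

/-- The fixed vectors of the adjoint action (the Hermitian matrices commuting with all `ρ(g)`). -/
noncomputable def AdH0 {Γ : Type*} [Group Γ] {n : ℕ} (ρ : Γ →* U n) : Submodule ℝ (Hn n) where
  carrier := {a | ∀ g, cj (ρ g) a = a}
  add_mem' ha hb g := by rw [map_add, ha g, hb g]
  zero_mem' g := map_zero _
  smul_mem' t a ha g := by rw [map_smul, ha g]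

/-- The first cohomology of the adjoint action. -/
abbrev AdH1 {Γ : Type*} [Group Γ] {n : ℕ} (ρ : Γ →* U n) := AdZ1 ρ ⧸ (AdB1 ρ).submoduleOf (AdZ1 ρ)

/-- Third theorem, conclusion: all unitary representations of `G w` of dimension at most `N` are abelian, and all quotients
of `G w` of order at most `N` are cyclic. -/
def AbelianReps (w : FreeGroup (Fin 2)) (N : ℕ) : Prop :=
  (∀ k ≤ N, ∀ (ρ : G w →* U k) (g h : G w), ρ g * ρ h = ρ h * ρ g) ∧
  ∀ (Q : Type) [Group Q] [Finite Q] (f : G w →* Q), Function.Surjective f → Nat.card Q ≤ N → IsCyclic Q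

end Pool.Agent.Lib.MP_ef6aaf_al
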