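import Pool.Agent.Lib.MP_ef6aaf_al.Defs

/-!
# The adjoint cohomology of a unitary representation, in terms of matrices
-/

namespace Pool.Agent.Lib.MP_ef6aaf_al

/-- The Hermitian 1-cocycles of the adjoint action: `δ(gh) = δ(g) + ρ(g) δ(h) ρ(g)⁻¹`. -/
def adZ {Γ : Type} [Group Γ] {n : ℕ} (ρ : Γ →* U n) : Submodule ℝ (Γ → Mn n) where
  carrier := {δ | (∀ g, star (δ g) = δ g) ∧ ∀ g h, δ (g * h) = δ g + (ρ g : Mn n) * δ h * star (ρ g : Mn n)}
  add_mem' {a b} ha hb := by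
    refine ⟨fun g => ?_, fun g h => ?_⟩
    · rw [Pi.add_apply, star_add, ha.1 g, hb.1 g]
    · rw [Pi.add_apply, Pi.add_apply, Pi.add_apply, ha.2 g h, hb.2 g h, mul_add, add_mul]; abel
  zero_mem' := ⟨fun g => by simp, fun g h => by simp⟩
  smul_mem' t a ha := by
    refine ⟨fun g => ?_, fun g h => ?_⟩
    · rw [Pi.smul_apply, star_smul, ha.1 g, star_trivial]
    · rw [Pi.smul_apply, Pi.smul_apply, Pi.smul_apply, ha.2 g h, smul_add, mul_smul_comm, smul_mul_assoc]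

/-- The Hermitian 1-coboundaries of the adjoint action: `δ(g) = ρ(g) A ρ(g)⁻¹ - A`, `A` Hermitian. -/
def adB {Γ : Type} [Group Γ] {n : ℕ} (ρ : Γ →* U n) : Submodule ℝ (Γ → Mn n) where
  carrier := {δ | ∃ A : Mn n, star A = A ∧ ∀ g, δ g = (ρ g : Mn n) * A * star (ρ g : Mn n) - A}
  add_mem' {a b} ha hb := by
    obtain ⟨A, hA, hA'⟩ := ha
    obtain ⟨B, hB, hB'⟩ := hb
    refine ⟨A + B, by rw [star_add, hA, hB], fun g => ?_⟩
    rw [Pi.add_apply, hA' g, hB' g, mul_add, add_mul]; abel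
  zero_mem' := ⟨0, by simp, fun g => by simp⟩
  smul_mem' t a ha := by
    obtain ⟨A, hA, hA'⟩ := ha
    refine ⟨t • A, by rw [star_smul, hA, star_trivial], fun g => ?_⟩
    rw [Pi.smul_apply, hA' g, mul_smul_comm, smul_mul_assoc, smul_sub]

/-- The Hermitian matrices commuting with all `ρ(g)`. -/
def adH {Γ : Type} [Group Γ] {n : ℕ} (ρ : Γ →* U n) : Submodule ℝ (Mn n) where
  carrier := {A | star A = A ∧ ∀ g, (ρ g : Mn n) * A = A * (ρ g : Mn n)}
  add_mem' {a b} ha hb := by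
    refine ⟨by rw [star_add, ha.1, hb.1], fun g => ?_⟩
    rw [mul_add, ha.2 g, hb.2 g, add_mul]
  zero_mem' := ⟨by simp, fun g => by simp⟩
  smul_mem' t a ha := by
    refine ⟨by rw [star_smul, ha.1, star_trivial], fun g => ?_⟩
    rw [mul_smul_comm, ha.2 g, smul_mul_assoc]

/-- `dim H¹(ad ρ) < 2 dim H⁰(ad ρ)`, i.e. `dim Z¹ < dim B¹ + 2 dim H⁰` (real dimensions). -/
def AdSmall {Γ : Type} [Group Γ] {n : ℕ} (ρ : Γ →* U n) : Prop :=
  Module.rank ℝ (adZ ρ) < Module.rank ℝ (adB ρ) + 2 * Module.rank ℝ (adH ρ)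

end Pool.Agent.Lib.MP_ef6aaf_al
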