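import Pool.Agent.Lib.MP_ef6aaf_al.Base

/-!
# Words inducing Haar measure on unitary groups, statements A: measure, charts, word maps

Every `S_xx : Prop` is one piece, with a complete proof in words; the pieces it needs are hypotheses of the theorem to be
proved (see the request).  `D = D n` is the real dimension of the space `Hn n` of Hermitian matrices.

The idea of the whole proof.  Suppose `w(f) = 1`. In the chart `(B, t, a) ↦ chart f e B t a` (conjugation, twist, the rest) the word map does not see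
`B` and `t`, and it is `1 + O(s²)` for `|a| ≤ s`, `a` in the kernel of the derivative. So `{‖w - 1‖ ≤ C s²}` contains the `s²`-neighbourhood of a
box with `d` sides of length `r` and `k` sides of length `s`, and has measure `≥ c (s²)^{2D - d - k} s^k = c s^{4D - 2d - k}`. If `w` is Haar on `U(n)` this is
`≤ C s^{2D}`; so `2d + k ≤ 2D`.
-/

open MeasureTheory Metric
open scoped Matrix.Norms.L2Operator

namespace Pool.Agent.Lib.MP_ef6aaf_al

/-! ## Measure -/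

/-- [fub] The Fubini lemma. Proof: `∫_A μ(closedBall (Ψ ξ) ε) dξ = ∫_X vol {ξ ∈ A : dist q (Ψ ξ) ≤ ε} dμ(q)` (`lintegral_lintegral_swap`, the set `{(ξ,q) : dist q (Ψ ξ) ≤ ε}` is closed). The
left side is `≥ β vol A`. The inner volume on the right is `0` if `q ∉ N`, and otherwise the set `{ξ ∈ A : dist q (Ψ ξ) ≤ ε}` is empty or contained in
`closedBall ξ₀ (2 K ε)` (`‖ξ - ξ₀‖ ≤ K dist (Ψ ξ) (Ψ ξ₀) ≤ 2 K ε`), of volume `(4 K ε)^card ι` (`Real.volume_pi_closedBall`). -/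
def S_fub : Prop := ∀ (X : Type) [MetricSpace X] [SecondCountableTopology X] [MeasurableSpace X] [BorelSpace X]
  (μ : Measure X) [IsFiniteMeasure μ] (ι : Type) [Fintype ι] (A : Set (ι → ℝ)) (Ψ : (ι → ℝ) → X) (K ε : ℝ)
  (β : ENNReal) (N : Set X), MeasurableSet A → Continuous Ψ → 0 < K → 0 < ε →
  (∀ ξ ∈ A, ∀ ξ' ∈ A, ‖ξ - ξ'‖ ≤ K * dist (Ψ ξ) (Ψ ξ')) →
  (∀ ξ ∈ A, β ≤ μ (closedBall (Ψ ξ) ε)) → MeasurableSet N →
  (∀ ξ ∈ A, ∀ q, dist q (Ψ ξ) ≤ ε → q ∈ N) →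
  β * volume A ≤ ENNReal.ofReal ((4 * K * ε) ^ Fintype.card ι) * μ N

/-- [antilip] A strictly differentiable map with injective derivative is antilipschitz near the point.
Proof: `F'` is injective and `E` is finite dimensional, so `‖F' v‖ ≥ c ‖v‖` (`LinearMap.exists_antilipschitzWith`); strict differentiability gives
`‖F x - F y - F' (x - y)‖ ≤ (c/2) ‖x - y‖` for `x, y` near `0`. -/
def S_antilip : Prop := ∀ (E F : Type) [NormedAddCommGroup E] [NormedSpace ℝ E] [FiniteDimensional ℝ E]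
  [NormedAddCommGroup F] [NormedSpace ℝ F] (Φ : E → F) (Φ' : E →L[ℝ] F), HasStrictFDerivAt Φ Φ' 0 →
  (∀ v, Φ' v = 0 → v = 0) →
  ∃ K r : ℝ, 0 < K ∧ 0 < r ∧ ∀ x y, ‖x‖ ≤ r → ‖y‖ ≤ r → ‖x - y‖ ≤ K * ‖Φ x - Φ y‖

/-- [quad] Quadratic estimate. Proof: `fderiv Φ` is `C¹`, so Lipschitz near `0` (`ContDiffAt.exists_lipschitzOnWith`), `‖fderiv Φ x‖ ≤ C ‖x‖` for `‖x‖ ≤ r`; by the mean value inequality
(`Convex.norm_image_sub_le_of_norm_fderiv_le` on the ball of radius `‖x‖`) `‖Φ x - Φ 0‖ ≤ C ‖x‖²`. -/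
def S_quad : Prop := ∀ (E F : Type) [NormedAddCommGroup E] [NormedSpace ℝ E]
  [NormedAddCommGroup F] [NormedSpace ℝ F] (Φ : E → F), ContDiff ℝ 2 Φ → fderiv ℝ Φ 0 = 0 →
  ∃ C r : ℝ, 0 < C ∧ 0 < r ∧ ∀ x, ‖x‖ ≤ r → ‖Φ x - Φ 0‖ ≤ C * ‖x‖ ^ 2

/-- [inv] Proof: left multiplication by `g` is an isometry of `U n` (`CStarRing.norm_coe_unitary_mul`), so `closedBall g ε` is the preimage of `closedBall 1 ε` under multiplication by `g⁻¹`;
`measure_preimage_mul`. -/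
def S_inv : Prop := ∀ (n : ℕ) [MeasurableSpace (U n)] [BorelSpace (U n)] (μ : Measure (U n)) [IsProbabilityMeasure μ]
  [μ.IsMulLeftInvariant] (g : U n) (ε : ℝ), μ (closedBall g ε) = μ (closedBall 1 ε)

/-- [exder] `a ↦ ex a`, as a map `Hn n → Mn n`, is smooth and its derivative at `0` is `a ↦ i a`.
Proof: `(ex a : Mn n) = NormedSpace.exp (i • a)` (`selfAdjoint.expUnitary_coe`); the exponential of a Banach algebra is analytic (`NormedSpace.exp_analytic`) with derivative the identity at `0`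
(`hasStrictFDerivAt_exp_zero`); compose with the continuous real linear map `a ↦ i • a`. -/
def S_exder : Prop := ∀ n : ℕ, ContDiff ℝ 2 (fun a : Hn n => ((ex a : U n) : Mn n)) ∧
  ∀ a : Hn n, fderiv ℝ (fun a : Hn n => ((ex a : U n) : Mn n)) 0 a = Complex.I • (a : Mn n)

/-- [exmu] Existence of Haar probability measure: stated as an elimination principle. Proof: `borel (U n)`, `haarMeasure ⊤` (`TopologicalSpace.PositiveCompacts`), normalised: `haarMeasure_self`. -/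
def S_exmu : Prop := ∀ (n : ℕ) (p : Prop), (∀ [MeasurableSpace (U n)] [BorelSpace (U n)] (μ : Measure (U n)) [IsProbabilityMeasure μ]
  [μ.IsMulLeftInvariant], p) → p

/-- [up] Upper bound for balls (take `S_fub`, `S_antilip`, `S_inv`, `S_exder` as hypotheses).
Proof: choose a linear equivalence `J : (Fin D → ℝ) ≃ Hn n`. `Ψ = ex ∘ J` is antilipschitz on a ball `A = closedBall 0 r` (`[antilip]`: the derivative `i J` is injective; the metric of `U n` is the norm of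
the difference). `[fub]` with `N = univ`, `β = μ (closedBall 1 ε)` (`[inv]`): `β (2r)^D ≤ (4Kε)^D`. -/
def S_up : Prop := ∀ (n : ℕ) [MeasurableSpace (U n)] [BorelSpace (U n)] (μ : Measure (U n)) [IsProbabilityMeasure μ]
  [μ.IsMulLeftInvariant], ∃ C : ℝ, 0 < C ∧ ∀ ε : ℝ, 0 < ε → μ (closedBall 1 ε) ≤ ENNReal.ofReal (C * ε ^ D n)

/-- [low] Lower bound for balls (take `S_inv`, `S_exder` as hypotheses).
Proof: `J` as in `[up]`, `Ψ = ex ∘ J` is `L`-Lipschitz on `closedBall 0 2` (`C¹` on a compact convex set). There is `δ > 0` such that every `q ∈ closedBall (1 : U n) δ` is `Ψ ξ_q` with `‖ξ_q‖ ≤ 1`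
(`expUnitary_argSelfAdjoint` for `‖q - 1‖ < 2`, and `Unitary.norm_argSelfAdjoint` or `Unitary.two_mul_one_sub_cos_norm_argSelfAdjoint` shows that the argument is small if `δ` is). `μ (closedBall 1 δ) > 0`: otherwise every ball of
radius `δ` is a null set (`[inv]`) and finitely many of them cover the compact space `U n`. Fubini: with `A = closedBall 0 2`,
`β vol A = ∫_A μ(closedBall (Ψ ξ) ε) dξ = ∫ vol {ξ ∈ A : dist q (Ψ ξ) ≤ ε} dμ(q) ≥ ∫_{closedBall 1 δ} vol (closedBall ξ_q (ε/L)) dμ = (2ε/L)^D μ(closedBall 1 δ)` for `ε/L ≤ 1`, where `β = μ (closedBall 1 ε)`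
(`[inv]`). For larger `ε ≤ 1` decrease the constant (or take `L ≥ 1`, then `ε/L ≤ 1`). -/
def S_low : Prop := ∀ (n : ℕ) [MeasurableSpace (U n)] [BorelSpace (U n)] (μ : Measure (U n)) [IsProbabilityMeasure μ]
  [μ.IsMulLeftInvariant], ∃ c : ℝ, 0 < c ∧ ∀ ε : ℝ, 0 < ε → ε ≤ 1 → ENNReal.ofReal (c * ε ^ D n) ≤ μ (closedBall 1 ε)

/-! ## Word maps -/

/-- [wlip] Word maps are Lipschitz. Proof: `FreeGroup.induction_on` with the claim `∃ L ≥ 0`: `‖w(q) - w(q')‖ ≤ L dist q q'`. Products: `‖ab - a'b'‖ ≤ ‖a - a'‖ ‖b‖ + ‖a'‖ ‖b - b'‖` and unitary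
matrices have norm `≤ 1`; inverses: `u⁻¹ = star u` and `‖star u - star v‖ = ‖u - v‖`; letters: `dist_le_pi_dist`. -/
def S_wlip : Prop := ∀ (n : ℕ) (w : FreeGroup (Fin 2)), ∃ L : ℝ, 0 < L ∧ ∀ q q' : Fin 2 → U n,
  ‖((FreeGroup.lift q w : U n) : Mn n) - ((FreeGroup.lift q' w : U n) : Mn n)‖ ≤ L * dist q q'

/-- [wsm] `wm f w` is `C²` (take `S_exder` as hypothesis). Proof: `FreeGroup.induction_on`; letters: `ex (a i) * f i` is a product of a `C²` function of `a` and a constant; products: `ContDiff.mul`;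
inverses of letters: `(u⁻¹ : Mn n) = star u`, and `star` is a continuous real linear map. -/
def S_wsm : Prop := ∀ (n : ℕ) (f : Fin 2 → U n) (w : FreeGroup (Fin 2)), ContDiff ℝ 2 (wm f w)

/-- [wder] The derivative of the word map on cocycles (take `S_exder`, `S_wsm` as hypotheses).
Proof: let `v i = δ (of i)`, `σ g = FreeGroup.lift f g`, and let `P g` be the claim `fderiv (wm f g) 0 v = i • δ g * σ g`; note `wm f g 0 = σ g` (`ex 0 = 1`). Letters: `[exder]` and the product with a constant.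
Products: `wm f (g h) = wm f g * wm f h`, so the derivative is `i δ_g σ_g σ_h + σ_g i δ_h σ_h = i (δ_g + σ_g δ_h σ_g⁻¹) σ_{gh} = i δ_{gh} σ_{gh}`. Inverses: `wm f g⁻¹ = star (wm f g)`, derivative
`star (i δ_g σ_g) = - i σ_g⁻¹ δ_g`, and `0 = δ_1 = δ_{g⁻¹ g} = δ_{g⁻¹} + σ_g⁻¹ δ_g σ_g` gives `i δ_{g⁻¹} σ_{g⁻¹} = - i σ_g⁻¹ δ_g`. (`δ_1 = 0` from `δ_{1·1}`.) -/
def S_wder : Prop := ∀ (n : ℕ) (f : Fin 2 → U n) (δ : FreeGroup (Fin 2) → Hn n), IsAdCocycle f δ →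
  ∀ w : FreeGroup (Fin 2), fderiv ℝ (wm f w) 0 (fun i => δ (FreeGroup.of i)) =
    Complex.I • (δ w : Mn n) * ((FreeGroup.lift f w : U n) : Mn n)

/-- [evmul] Proof: `ev e` is a homomorphism to `ℤ`. -/
def S_evmul : Prop := ∀ e : Fin 2 → ℤ, (∀ g h, ev e (g * h) = ev e g + ev e h) ∧ (∀ i, ev e (FreeGroup.of i) = e i) ∧
  ev e 1 = 0 ∧ ∀ g, ev e g⁻¹ = - ev e g

/-- [wchart] The word at the chart (take `S_evmul` as hypothesis). Proof: both sides, as functions of `w`, are homomorphisms into `U n` before conjugation: `ex (s • 1)` is central (it is a scalar matrix: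
`ex (s • 1) = e^{is} 1`) and `ex ((s+s') • 1) = ex (s • 1) ex (s' • 1)` (`Commute.expUnitary_add`). So `w ↦ ex B * (ex ((t ev e w) • 1) * lift (ex (a i) f i) w) * (ex B)⁻¹` is a homomorphism with
the right values at the letters (`FreeGroup.lift.unique` or `FreeGroup.ext_hom`). -/
def S_wchart : Prop := ∀ (n : ℕ) (f : Fin 2 → U n) (e : Fin 2 → ℤ) (B : Hn n) (t : ℝ) (a : Fin 2 → Hn n) (w : FreeGroup (Fin 2)),
  FreeGroup.lift (chart f e B t a) w =
    ex B * (ex ((t * (ev e w : ℝ)) • (1 : Hn n)) * FreeGroup.lift (fun i => ex (a i) * f i) w) * (ex B)⁻¹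

/-- [cder] The chart is `C²` and its derivative at `0` (take `S_exder` as hypothesis).
Proof: product rule; `((ex B)⁻¹ : Mn n) = ex (-B)` (or `star`). The derivative of `ex B (ex (t e_i 1) ex (a_i) f_i) ex(-B)` at `0` in direction `(B,t,a)` is
`i B f_i + i t e_i f_i + i a_i f_i - f_i i B = i (B + t e_i + a_i - f_i B f_i⁻¹) f_i`. -/
def S_cder : Prop := ∀ (n : ℕ) (f : Fin 2 → U n) (e : Fin 2 → ℤ) (i : Fin 2),
  ContDiff ℝ 2 (fun p : Hn n × ℝ × (Fin 2 → Hn n) => ((chart f e p.1 p.2.1 p.2.2 i : U n) : Mn n)) ∧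
  ∀ p : Hn n × ℝ × (Fin 2 → Hn n),
    fderiv ℝ (fun p : Hn n × ℝ × (Fin 2 → Hn n) => ((chart f e p.1 p.2.1 p.2.2 i : U n) : Mn n)) 0 p =
      Complex.I • ((p.1 - cj (f i) p.1 + (p.2.1 * (e i : ℝ)) • (1 : Hn n) + p.2.2 i : Hn n) : Mn n) * (f i : Mn n)

/-! ## The core estimate -/

/-- [box] The antilipschitz parametrisation (take `S_antilip`, `S_cder` as hypotheses).
Proof: `Ψ p = chart f e (L1 ξ).1 (L1 ξ).2 (L2 η)`, `ξ = p ∘ inl`, `η = p ∘ inr`, regarded as a map to `Fin 2 → Mn n` (sup norm); it is `C²`, so strictly differentiable at `0`, with derivative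
`i (… + L2 η i) f_i` in coordinate `i`, which is injective by hypothesis (`f_i` is invertible). `dist` in `Fin 2 → U n` is the sup of the distances of the entries. Continuity: the entries are continuous. -/
def S_box : Prop := ∀ (n : ℕ) (f : Fin 2 → U n) (e : Fin 2 → ℤ) (d k : ℕ) (L1 : (Fin d → ℝ) →ₗ[ℝ] Hn n × ℝ)
  (L2 : (Fin k → ℝ) →ₗ[ℝ] (Fin 2 → Hn n)),
  (∀ ξ η, (∀ i, (L1 ξ).1 - cj (f i) (L1 ξ).1 + ((L1 ξ).2 * (e i : ℝ)) • (1 : Hn n) + L2 η i = 0) → ξ = 0 ∧ η = 0) →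
  Continuous (fun p : Fin d ⊕ Fin k → ℝ =>
    chart f e (L1 (fun i => p (Sum.inl i))).1 (L1 (fun i => p (Sum.inl i))).2 (L2 (fun j => p (Sum.inr j)))) ∧
  ∃ K r : ℝ, 0 < K ∧ 0 < r ∧ ∀ p p' : Fin d ⊕ Fin k → ℝ, ‖p‖ ≤ r → ‖p'‖ ≤ r → ‖p - p'‖ ≤ K * dist
    (chart f e (L1 (fun i => p (Sum.inl i))).1 (L1 (fun i => p (Sum.inl i))).2 (L2 (fun j => p (Sum.inr j))))
    (chart f e (L1 (fun i => p' (Sum.inl i))).1 (L1 (fun i => p' (Sum.inl i))).2 (L2 (fun j => p' (Sum.inr j))))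

/-- [clo] The `s²`-neighbourhood of the box is contained in `Near` (take `S_quad`, `S_wsm`, `S_wchart`, `S_wlip`, `S_exder` as hypotheses).
Proof: (1) `a ↦ wm f w a` is `C²`, equals `1` at `0` (`lift f w = 1`, `ex 0 = 1`); compose with `L2`: the derivative of `η ↦ wm f w (L2 η)` at `0` is `0`, so by `[quad]` `‖wm f w (L2 η) - 1‖ ≤ C s²` for `‖η‖ ≤ s`
small. By `[wchart]` with `ev e w = 0`, `lift (chart …) w - 1` is the conjugate of `wm f w (L2 η) - 1` by `ex B`, of the same norm. By `[wlip]` the claim for `q` with `dist q (chart …) ≤ s²`.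
(2) If `e 0 = 0`, `chart … 0 = ex B (ex (a_0) f_0) (ex B)⁻¹` and `‖chart … 0 - 1‖ = ‖ex (a_0) f_0 - 1‖ ≥ ‖f_0 - 1‖ - ‖ex (a_0) - 1‖`, where `‖ex (L2 η 0) - 1‖ → 0` as `η → 0` (continuity). So if `‖f_0 - 1‖ > 0` then
`‖q_0 - 1‖ ≥ ‖f_0 - 1‖/2` for `s` small; if `‖f_0 - 1‖ = 0` the claim is trivial. -/
def S_clo : Prop := ∀ (n : ℕ) (w : FreeGroup (Fin 2)) (f : Fin 2 → U n) (e : Fin 2 → ℤ) (k : ℕ)
  (L2 : (Fin k → ℝ) →ₗ[ℝ] (Fin 2 → Hn n)), FreeGroup.lift f w = 1 → ev e w = 0 → (∀ η, L2 η ∈ kerW f w) →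
  ∃ C s₀ : ℝ, 0 < C ∧ 0 < s₀ ∧ ∀ s : ℝ, 0 < s → s ≤ s₀ → ∀ (B : Hn n) (t : ℝ) (η : Fin k → ℝ), ‖η‖ ≤ s →
    ∀ q : Fin 2 → U n, dist q (chart f e B t (L2 η)) ≤ s ^ 2 → q ∈ Near w f e (C * s ^ 2)

/-- [core] The core estimate (take `S_fub`, `S_inv`, `S_low`, `S_box`, `S_clo` as hypotheses).
Proof: `K, r` from `[box]`, `C, s₀` from `[clo]`. For `s ≤ min (s₀, r, 1)` let `A` be the box `|p (inl i)| ≤ r`, `|p (inr j)| ≤ s`, `vol A = (2r)^d (2s)^k` (`Real.volume_pi` of a product of intervals `Set.pi univ (Icc ..)`,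
`Fintype.prod_sum_type`). Apply `[fub]` to `X = Fin 2 → U n` with the measure `Measure.pi (fun _ => μ)`, `ε = s²`, `N = Near w f e (C s²)` (closed), `β = (c s^{2D})²`: balls for the sup metric are products
(`closedBall_pi`, `Measure.pi_pi`), each factor has measure `≥ c (s²)^D` by `[inv]`, `[low]`. So `c² s^{4D} (2r)^d (2s)^k ≤ (4 K s²)^{d+k} μ²(N)`; cancel `s^k`. -/
def S_core : Prop := ∀ (n : ℕ) [MeasurableSpace (U n)] [BorelSpace (U n)] (μ : Measure (U n)) [IsProbabilityMeasure μ]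
  [μ.IsMulLeftInvariant] (w : FreeGroup (Fin 2)) (f : Fin 2 → U n) (e : Fin 2 → ℤ) (d k : ℕ)
  (L1 : (Fin d → ℝ) →ₗ[ℝ] Hn n × ℝ) (L2 : (Fin k → ℝ) →ₗ[ℝ] (Fin 2 → Hn n)),
  FreeGroup.lift f w = 1 → ev e w = 0 → (∀ η, L2 η ∈ kerW f w) →
  (∀ ξ η, (∀ i, (L1 ξ).1 - cj (f i) (L1 ξ).1 + ((L1 ξ).2 * (e i : ℝ)) • (1 : Hn n) + L2 η i = 0) → ξ = 0 ∧ η = 0) →
  ∃ c C s₀ : ℝ, 0 < c ∧ 0 < C ∧ 0 < s₀ ∧ ∀ s : ℝ, 0 < s → s ≤ s₀ →
    ENNReal.ofReal (c * s ^ (4 * D n)) ≤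
      ENNReal.ofReal (s ^ (2 * d + k)) * (Measure.pi fun _ : Fin 2 => μ) (Near w f e (C * s ^ 2))

/-- [linalg] Proof: `d = finrank (range Θ)`, `K = R ⊕ K'` with `R = range Θ`, `k = finrank K'`. Take a basis of `R`, preimages in `V` of its elements: this gives `L1` with `Θ ∘ L1` injective with range `R`; `L2` from
a basis of `K'`. If `Θ (L1 ξ) + L2 η = 0` then `L2 η ∈ R ∩ K' = 0`. Rank-nullity: `d = finrank V - finrank (ker Θ)`. -/
def S_linalg : Prop := ∀ (V W : Type) [AddCommGroup V] [Module ℝ V] [FiniteDimensional ℝ V] [AddCommGroup W] [Module ℝ W]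
  [FiniteDimensional ℝ W] (Θ : V →ₗ[ℝ] W) (K : Submodule ℝ W), LinearMap.range Θ ≤ K →
  ∃ (d k : ℕ) (L1 : (Fin d → ℝ) →ₗ[ℝ] V) (L2 : (Fin k → ℝ) →ₗ[ℝ] W),
    d + Module.finrank ℝ (LinearMap.ker Θ) = Module.finrank ℝ V ∧ d + k = Module.finrank ℝ K ∧
    (∀ η, L2 η ∈ K) ∧ ∀ ξ η, Θ (L1 ξ) + L2 η = 0 → ξ = 0 ∧ η = 0

/-- [theta] The tangent directions of conjugation and twist (take `S_wder`, `S_evmul` as hypotheses).
Proof: `Θ (B, t) i = B - cj (f i) B + (t e_i) • 1`. In `kerW`: `δ g = B - cj (lift f g) B + (t ev e g) • 1` is a cocycle (`cj` of a scalar matrix is itself, `cj (g h) = cj g ∘ cj h`), and `δ w = 0` as `lift f w = 1`,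
`ev e w = 0`; use `[wder]`. Kernel: if `Θ (B,t) = 0` take the trace of coordinate `i` with `e_i ≠ 0`: `tr (f B f⁻¹) = tr B`, so `t e_i n = 0`, `t = 0`, and `cj (f i) B = B` for all `i`. So `ker Θ ≅ Z0 f`. -/
def S_theta : Prop := ∀ (n : ℕ) (w : FreeGroup (Fin 2)) (f : Fin 2 → U n) (e : Fin 2 → ℤ), 1 ≤ n → e ≠ 0 →
  FreeGroup.lift f w = 1 → ev e w = 0 →
  ∃ Θ : (Hn n × ℝ) →ₗ[ℝ] (Fin 2 → Hn n),
    (∀ p i, Θ p i = p.1 - cj (f i) p.1 + (p.2 * (e i : ℝ)) • (1 : Hn n)) ∧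
    LinearMap.range Θ ≤ kerW f w ∧ Module.finrank ℝ (LinearMap.ker Θ) = Module.finrank ℝ (Z0 f)

/-- [GC] The criterion (take `S_exmu`, `S_up`, `S_core`, `S_linalg`, `S_theta` as hypotheses). Proof: suppose `finrank (kerW f w) ≥ D + z`, `z = finrank (Z0 f)`. `[theta]`, `[linalg]` with `K = kerW f w`, `V = Hn n × ℝ` give `d = D + 1 - z`,
`d + k = finrank kerW ≥ D + z`, so `2d + k ≥ 2D + 1`. `[core]`: `c s^{4D} ≤ s^{2d+k} μ²(Near …)` and, as `w` is Haar on `U(n)`, `μ²(Near …) ≤ μ²{q : w(q) ∈ closedBall 1 (C s²)} = μ (closedBall 1 (C s²)) ≤ C' s^{2D}`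
(`Measure.map_apply`, the word map is continuous). So `c s^{4D} ≤ C' s^{2d+k+2D} ≤ C' s^{4D+1}` for all small `s`, contradiction. (`HaarOn w n` applied to `μ`; such a `μ` exists by `[exmu]` with `p = False`.) -/
def S_GC : Prop := ∀ (n : ℕ) (w : FreeGroup (Fin 2)) (f : Fin 2 → U n) (e : Fin 2 → ℤ), 1 ≤ n → HaarOn w n → e ≠ 0 →
  FreeGroup.lift f w = 1 → ev e w = 0 → Module.finrank ℝ (kerW f w) < D n + Module.finrank ℝ (Z0 f)

/-- [expo] Words with both exponent sums zero are not Haar (take `S_exmu` as hypothesis).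
Proof: if both exponent sums are zero then `det (lift q w) = 1` for all `q` (a homomorphism from the free group to an abelian group is determined by the exponent sums). So the push-forward `μ` is carried by `{det = 1}`: `μ {det = 1} = 1`.
Let `z = e^{iπ/n}`; multiplication by the scalar matrix `z` preserves `μ` and maps `{det = 1}` to `{det = -1}`, so `μ {det = -1} = 1`; disjoint sets, contradiction. -/
def S_expo : Prop := ∀ (n : ℕ) (w : FreeGroup (Fin 2)), 1 ≤ n → HaarOn w n → ¬ (e0 w = 0 ∧ e1 w = 0)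

end Pool.Agent.Lib.MP_ef6aaf_al
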