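import Pool.Agent.Lib.MP_ef6aaf_al.StmA

/-!
# Words inducing Haar measure on unitary groups, statements B: rigidity (first theorem)
-/

open MeasureTheory Metric Matrix
open scoped Matrix.Norms.L2Operator

namespace Pool.Agent.Lib.MP_ef6aaf_al

/-- [blkmul] Proof: entries, `Fin.sum_univ_succ`, `Fin.cases`. -/
def S_blkmul : Prop := ∀ (m : ℕ) (α α' : ℂ) (r r' b b' : Fin m → ℂ) (M M' : Mn m),
  blk α r b M * blk α' r' b' M' = blk (α * α' + r ⬝ᵥ b') (α • r' + Matrix.vecMul r M') (α' • b + M.mulVec b')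
    (Matrix.vecMulVec b r' + M * M') ∧
  star (blk α r b M) = blk (star α) (star b) (star r) (star M) ∧
  blk α r b M + blk α' r' b' M' = blk (α + α') (r + r') (b + b') (M + M') ∧
  (1 : Mn (m + 1)) = blk 1 0 0 1 ∧
  (∀ t : ℂ, t • blk α r b M = blk (t * α) (t • r) (t • b) (t • M)) ∧
  (blk α r b M = blk α' r' b' M' → α = α' ∧ r = r' ∧ b = b' ∧ M = M') ∧
  (∀ A : Mn (m + 1), ∃ α r b M, A = blk α r b M)

/-- [blkrep] The pair `1 ⊕ ρ` (take `S_blkmul` as hypothesis). Proof: `blk 1 0 0 M` is unitary if `M` is, and `M ↦ blk 1 0 0 M` is multiplicative; so `lift f g = blk 1 0 0 (ρ g)` for all `g`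
(`FreeGroup.induction_on` or uniqueness of lifts), where `ρ : FreeGroup (Fin 2) →* U m`. -/
def S_blkrep : Prop := ∀ (m : ℕ) (ρ : FreeGroup (Fin 2) →* U m), ∃ f : Fin 2 → U (m + 1),
  ∀ g : FreeGroup (Fin 2), ((FreeGroup.lift f g : U (m + 1)) : Mn (m + 1)) = blk 1 0 0 (ρ g : Mn m)

/-- [blkcoc] Three cocycles (take `S_blkmul`, `S_evmul` as hypotheses). Proof: (a) `δ g = B - cj (lift f g) B`: `cj` is multiplicative. (b) `δ g = t ev e g • 1` and (c) `τ ev e g • blk 0 0 0 1`: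
these matrices commute with `lift f g = blk 1 0 0 (ρ g)`, and `ev e` is additive. (d) for a cocycle `v` of `ρ`, `δ g = blk 0 (star (z • v g)) (z • v g) 0` is Hermitian and
`cj (lift f g) (δ h) = blk 0 (star (z • ρ_g v_h)) (z • ρ_g v_h) 0`. The sum of cocycles is a cocycle. -/
def S_blkcoc : Prop := ∀ (m : ℕ) (ρ : FreeGroup (Fin 2) →* U m) (f : Fin 2 → U (m + 1)) (e : Fin 2 → ℤ)
  (v : FreeGroup (Fin 2) → Fin m → ℂ),
  (∀ g, ((FreeGroup.lift f g : U (m + 1)) : Mn (m + 1)) = blk 1 0 0 (ρ g : Mn m)) → IsCocycle ρ v →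
  ∀ (B : Hn (m + 1)) (t τ : ℝ) (z : ℂ), ∃ δ : FreeGroup (Fin 2) → Hn (m + 1), IsAdCocycle f δ ∧
    ∀ g, (δ g : Mn (m + 1)) = (B : Mn (m + 1)) - ((cj (FreeGroup.lift f g) B : Hn (m + 1)) : Mn (m + 1)) +
      ((t * (ev e g : ℝ) : ℝ) : ℂ) • (1 : Mn (m + 1)) + ((τ * (ev e g : ℝ) : ℝ) : ℂ) • blk 0 0 0 1 +
      blk 0 (star (z • v g)) (z • v g) 0

/-- [schur] The Hermitian matrices commuting with `1 ⊕ ρ` (take `S_blkmul` as hypothesis).
Proof: `B = blk α r b M` Hermitian, commuting with all `blk 1 0 0 (ρ g)` (the commutant of the two generators is closed under products and inverses, so it commutes with `lift f g` for all `g`). Then `ρ_g b = b` for all `g`, so `b = 0` and `r = star b = 0`; `α` is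
real; `M` is Hermitian and commutes with `ρ`. `M` has an eigenvalue `β` (`m ≥ 1`; `Module.End.exists_eigenvalue`), the eigenspace is invariant under `ρ`, so it is everything: `M = β 1`, `β` real. So `Z0 f` is
contained in the real span of `blk 1 0 0 0` and `blk 0 0 0 1`. -/
def S_schur : Prop := ∀ (m : ℕ) (ρ : FreeGroup (Fin 2) →* U m) (f : Fin 2 → U (m + 1)), 1 ≤ m →
  (∀ g, ((FreeGroup.lift f g : U (m + 1)) : Mn (m + 1)) = blk 1 0 0 (ρ g : Mn m)) → IsIrr ρ →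
  (∀ v, IsFixed ρ v → v = 0) → Module.finrank ℝ (Z0 f) ≤ 2

/-- [count] The kernel of the derivative of the word map at `1 ⊕ ρ` is large (take `S_wder`, `S_blkmul`, `S_blkcoc`, `S_evmul` as hypotheses).
Proof: the real linear map `Θ : Hn (m+1) × ℝ × ℝ × ℂ → (Fin 2 → Hn (m+1))`, `Θ (B,t,τ,z) i = ` the value at `of i` of the cocycle of `[blkcoc]`, has its range in `kerW f w` (`[wder]`: the cocycle vanishes at `w` because
`lift f w = 1`, `ev e w = 0`, `v w = 0`). Its kernel is contained in `Z0 f × 0`: if `Θ (B,t,τ,z) = 0` then the cocycle vanishes at both letters, hence everywhere (a cocycle vanishing at the letters vanishes on the free group). With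
`B = blk α r b M`: `B - cj (lift f g) B = blk 0 (..) (b - ρ_g b) (M - ρ_g M ρ_g⁻¹)`. Entry `(0,0)`: `t ev e g = 0`, and `ev e (of i) = e i ≠ 0` for some `i`, so `t = 0`. Entry `(1,0)`: `b - ρ_g b + z v_g = 0`, so if `z ≠ 0` then `v` is a coboundary; hence
`z = 0`. Entry `(1,1)`: `M - ρ_g M ρ_g⁻¹ + τ ev e g 1 = 0`, the trace gives `τ e_i m = 0`, `τ = 0`. So `B ∈ Z0 f`. Dimensions: `D + 1 + 1 + 2 ≤ finrank (kerW f w) + finrank (Z0 f)`. -/
def S_count : Prop := ∀ (m : ℕ) (w : FreeGroup (Fin 2)) (ρ : FreeGroup (Fin 2) →* U m) (f : Fin 2 → U (m + 1)) (e : Fin 2 → ℤ)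
  (v : FreeGroup (Fin 2) → Fin m → ℂ), 1 ≤ m →
  (∀ g, ((FreeGroup.lift f g : U (m + 1)) : Mn (m + 1)) = blk 1 0 0 (ρ g : Mn m)) → IsCocycle ρ v →
  ¬ IsCobound ρ v → e ≠ 0 → ev e w = 0 → ρ w = 1 → v w = 0 →
  D (m + 1) + 4 ≤ Module.finrank ℝ (kerW f w) + Module.finrank ℝ (Z0 f)

/-- [irr] The irreducible case (take `S_GC`, `S_expo`, `S_blkmul`, `S_blkrep`, `S_schur`, `S_count`, `S_evmul` as hypotheses).
Proof: suppose `b` is not a coboundary. Let `ρ' = ρ ∘ (quotient map)`, `v = b ∘ (quotient map)`: irreducible, no fixed vectors, `v` not a coboundary, `ρ' w = 1`, `v w = b 1 = 0`. `e = ![- e1 w, e0 w]` is not `0` by `[expo]` and `ev e w = -e1 w * e0 w + e0 w * e1 w = 0`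
(`ev e w = e 0 * e0 w + e 1 * e1 w`, by uniqueness of homomorphisms from the free group). `f` from `[blkrep]`; `lift f w = 1`. `[GC]` for `n = m + 1`: `finrank kerW < D + z`, `z = finrank Z0 ≤ 2` (`[schur]`), `[count]`: `D + 4 ≤ finrank kerW + z < D + 2z ≤ D + 4`. -/
def S_irr : Prop := ∀ (m : ℕ) (w : FreeGroup (Fin 2)), 1 ≤ m → HaarOn w (m + 1) → ∀ ρ : G w →* U m, IsIrr ρ →
  (∀ v, IsFixed ρ v → v = 0) → ∀ b : G w → Fin m → ℂ, IsCocycle ρ b → IsCobound ρ b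

/-- `b` is orthogonal to all fixed vectors -/
def Orth {Γ : Type*} [Group Γ] {k : ℕ} (ρ : Γ →* U k) (b : Γ → Fin k → ℂ) : Prop :=
  ∀ v, IsFixed ρ v → ∀ g, star v ⬝ᵥ b g = 0

/-- [onb] Restriction to an invariant subspace in coordinates. Proof: let `E = EuclideanSpace ℂ (Fin k)`, `W` as a subspace of `E`, `m = finrank W`, an orthonormal basis of `W` (`stdOrthonormalBasis`); let `J` be the `k × m` matrix of its
vectors: `Jᴴ J = 1`, and `J Jᴴ` is the orthogonal projection onto `W`: `J Jᴴ x = x` for `x ∈ W`, and `range J = W`. Put `ρ' g = Jᴴ ρ(g) J`: as `ρ(g) J x ∈ W`, `J ρ'(g) = J Jᴴ ρ(g) J = ρ(g) J`; so `ρ'` is multiplicative, `ρ' 1 = 1`, and `ρ'(g)` is unitary: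
`ρ'(g)ᴴ = Jᴴ ρ(g)ᴴ J = Jᴴ ρ(g⁻¹) J = ρ'(g⁻¹)`. Also `Jᴴ ρ(g) = ρ'(g) Jᴴ` (take adjoints for `g⁻¹`). -/
def S_onb : Prop := ∀ (Γ : Type) [Group Γ] (k : ℕ) (ρ : Γ →* U k) (W : Submodule ℂ (Fin k → ℂ)),
  (∀ g, ∀ x ∈ W, (ρ g : Mn k).mulVec x ∈ W) →
  ∃ (m : ℕ) (J : Matrix (Fin k) (Fin m) ℂ) (ρ' : Γ →* U m), Jᴴ * J = 1 ∧ m = Module.finrank ℂ W ∧
    (∀ x, J.mulVec x ∈ W) ∧ (∀ x ∈ W, J.mulVec (Jᴴ.mulVec x) = x) ∧
    (∀ g, J * (ρ' g : Mn m) = (ρ g : Mn k) * J) ∧ (∀ g, Jᴴ * (ρ g : Mn k) = (ρ' g : Mn m) * Jᴴ)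

/-- [red] Reduction to irreducible representations (take `S_onb` as hypothesis).
Proof: call an invariant subspace `W` bad if the cocycle `Jᴴ b` (`J, ρ'` from `[onb]`; it is a cocycle for `ρ'` as `Jᴴ ρ(g) = ρ'(g) Jᴴ`) is not a coboundary. Better: call `W` good if there is `u ∈ W` with `P_W b(g) = ρ(g) u - u` for all `g`, where `P_W = J Jᴴ` is the
orthogonal projection (or: for all `x ∈ W`: `⟨x, b g⟩ = ⟨x, ρ g u - u⟩`, which avoids the projection). The whole space is bad. Let `W` be a bad invariant subspace of minimal dimension; it is not `0`. `ρ'` is irreducible: an invariant subspace `W₁`, `0 ≠ W₁ ≠ W`, has an invariant orthogonal complement `W₂` in `W`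
(also `≠ W`), both are good with `u₁, u₂`, and `u₁ + u₂` shows that `W` is good. `ρ'` has no fixed vector `≠ 0`: such a vector spans `W` (irreducible), it is a fixed vector `v` of `ρ`, and `⟨v, b g⟩ = 0`, so `W` is good with `u = 0`. `m = finrank W ≥ 1` as `W ≠ 0`. If `ρ` has a fixed vector `v ≠ 0` then `W` is not the
whole space (otherwise `Jᴴ v` would be a nonzero fixed vector of `ρ'`), so `m < k`. -/
def S_red : Prop := ∀ (Γ : Type) [Group Γ] (k : ℕ) (ρ : Γ →* U k) (b : Γ → Fin k → ℂ), IsCocycle ρ b → Orth ρ b → ¬ IsCobound ρ b →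
  ∃ (m : ℕ) (ρ' : Γ →* U m) (b' : Γ → Fin m → ℂ), 1 ≤ m ∧ m ≤ k ∧ ((∃ v, v ≠ 0 ∧ IsFixed ρ v) → m < k) ∧
    IsIrr ρ' ∧ (∀ v, IsFixed ρ' v → v = 0) ∧ IsCocycle ρ' b' ∧ ¬ IsCobound ρ' b'

/-- [b1] Proof: if `φ, ψ : Additive (G w) →+ ℝ` then `φ x e0 w + φ y e1 w = φ (w) = 0` (`x, y` the images of the letters), the same for `ψ`; as `(e0 w, e1 w) ≠ 0`, the vectors `(φ x, φ y)`, `(ψ x, ψ y)` are both multiples of `(- e1 w, e0 w)`, and a homomorphism is determined by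
its values at `x, y`. So every homomorphism is a real multiple of a fixed one or `0`: rank `≤ 1` (`rank_le_one_iff`). -/
def S_b1 : Prop := ∀ w : FreeGroup (Fin 2), ¬ (e0 w = 0 ∧ e1 w = 0) → Module.rank ℝ (Additive (G w) →+ ℝ) ≤ 1

/-- [shap] The cocycle of a homomorphism on a subgroup of finite index (Shapiro's lemma).
Proof: let `k = H.index`, `Q = Γ ⧸ H ≃ Fin k` (`Finite.equivFinOfCardEq`), `s : Q → Γ` a section with `s(H) = 1`. `ρ(g)` the permutation matrix of `q ↦ g q`: `(ρ(g) x)(q) = x(g⁻¹ q)`. For `φ : Additive H →+ ℝ` put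
`b_φ(g)(q) = φ(s(q)⁻¹ g s(g⁻¹ q))` (as a complex number). Cocycle: `s(q)⁻¹ g h s(h⁻¹g⁻¹q) = (s(q)⁻¹ g s(g⁻¹q)) (s(g⁻¹q)⁻¹ h s(h⁻¹g⁻¹q))`. `b_φ` is real linear in `φ`. The sum `T φ (g) = ∑_q b_φ(g)(q)` is a homomorphism `Γ → ℝ` (sum of the cocycle identity over `q`). Fixed vectors are the
constant ones (`Γ` is transitive on `Q`), and the constant vector `1` is fixed and not `0` (`k ≠ 0`). At the coset `q₀ = H` and `h ∈ H`: `b_φ(h)(q₀) = φ(h)`, and `(ρ(h) u - u)(q₀) = u(h⁻¹q₀) - u(q₀) = 0`. -/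
def S_shap : Prop := ∀ (Γ : Type) [Group Γ] (H : Subgroup Γ), H.index ≠ 0 → ∃ (ρ : Γ →* U H.index) (b : (Additive H →+ ℝ) → Γ → Fin H.index → ℂ)
  (T : (Additive H →+ ℝ) → (Additive Γ →+ ℝ)),
  (∃ v, v ≠ 0 ∧ IsFixed ρ v) ∧ (∀ φ, IsCocycle ρ (b φ)) ∧ (∀ φ, IsCobound ρ (b φ) → φ = 0) ∧
  (∀ (s t : ℝ) (φ ψ), T (s • φ + t • ψ) = s • T φ + t • T ψ) ∧
  (∀ φ, T φ = 0 → Orth ρ (b φ))

/-- [fin] Finite index subgroups (take `S_shap` as hypothesis). Proof: let `φ, ψ : Additive H →+ ℝ`; `T φ`, `T ψ` are linearly dependent, so `s • T φ + t • T ψ = 0` with `(s,t) ≠ 0`; let `χ = s • φ + t • ψ`, `T χ = 0`, so `b χ` is orthogonal to the fixed vectors, hence a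
coboundary by hypothesis, so `χ = 0`. So any two elements are linearly dependent, i.e. rank `≤ 1`. -/
def S_fin : Prop := ∀ (Γ : Type) [Group Γ], Module.rank ℝ (Additive Γ →+ ℝ) ≤ 1 →
  ∀ H : Subgroup Γ, H.index ≠ 0 →
  (∀ (ρ : Γ →* U H.index) (b : Γ → Fin H.index → ℂ), (∃ v, v ≠ 0 ∧ IsFixed ρ v) → IsCocycle ρ b → Orth ρ b → IsCobound ρ b) →
  Module.rank ℝ (Additive H →+ ℝ) ≤ 1

/-- First theorem: if `w` is Haar on `U(2), …, U(N+1)` then `G w` is rigid up to dimension `N`. -/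
def Main1 : Prop := ∀ (w : FreeGroup (Fin 2)) (N : ℕ), 1 ≤ N → (∀ n, 2 ≤ n → n ≤ N + 1 → HaarOn w n) → Rigid w N

/-- [m1] Assembly (take `S_irr`, `S_red`, `S_expo`, `S_b1`, `S_fin` as hypotheses). Proof: (1) if `b` is a cocycle for `ρ` of dimension `k ≤ N` without fixed vectors, not a coboundary, then `[red]` (`Orth` is clear) gives `ρ'` irreducible of dimension `m`, `1 ≤ m ≤ k ≤ N`, contradicting `[irr]` for `m + 1 ≤ N + 1`.
(2) `[fin]` with `[b1]` (`[expo]` for `n = 2`): for `ρ` of dimension `k = H.index ≤ N + 1` with a fixed vector, `[red]` gives `m < k`, so `m + 1 ≤ N + 1`, again a contradiction with `[irr]`. -/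
def S_m1 : Prop := Main1

/-- [ad] Second theorem: the adjoint cohomology (take `S_GC`, `S_expo`, `S_evmul`, `S_wder` as hypotheses).
Proof: `f i = ρ (mk (of i))`, so `lift f g = ρ (mk g)` and `lift f w = 1`; `e = ![- e1 w, e0 w] ≠ 0` (`[expo]`), `ev e w = - e1 w * e0 w + e0 w * e1 w = 0`. `[GC]`: `finrank (kerW f w) < D n + finrank (Z0 f)`. `Z0 f = AdH0 ρ` (a matrix commuting with the images of the two letters commutes
with all `lift f g`). The linear map `AdZ1 ρ → (Fin 2 → Hn n)`, `δ ↦ (δ (mk (of i)))_i` is injective (a cocycle vanishing at the letters vanishes everywhere) with range in `kerW f w` (`[wder]` for the cocycle `g ↦ δ (mk g)`, `δ (mk w) = δ 1 = 0`). So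
`finrank AdZ1 < D + z`, `z = finrank AdH0`; rank-nullity for `a ↦ (g ↦ cj (ρ g) a - a)` gives `finrank AdB1 = D - z`, and `AdB1 ≤ AdZ1` (`cj` is multiplicative). So `finrank AdH1 = finrank AdZ1 - finrank AdB1 < 2 z`. -/
def S_ad : Prop := ∀ (w : FreeGroup (Fin 2)) (n : ℕ), 1 ≤ n → HaarOn w n → ∀ ρ : G w →* U n,
  Module.rank ℝ (AdH1 ρ) < 2 * Module.rank ℝ (AdH0 ρ)

end Pool.Agent.Lib.MP_ef6aaf_al
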