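import Pool.Agent.Lib.MP_ef6aaf_al.StmB

/-!
# Words inducing Haar measure on unitary groups, statements C: perfect commutator subgroup (third theorem)

The idea.  After a Nielsen transformation `e1 w = 0`, `e0 w ≠ 0`.  The commutator subgroup of `G w` is perfect, so the Alexander polynomial
`F w` is a unit `± T^k`. So `w(q) = 1 + (± y^k X y^{-k}) + O(‖X‖²)`, `X = q_0 - 1`, `y = q_1`, and the set `{‖q_0 - 1‖ ≤ ε - C ε²}`, of measure `m(ε - C ε²)` where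
`m(ε) = μ {‖u - 1‖ ≤ ε}`, is contained in `{‖w(q) - 1‖ ≤ ε}`, of measure `m(ε)`. An irreducible representation of dimension `n ≥ 2` gives another set of measure `≥ c ε^D ≥ θ m(ε)` (`[core]`). So
`m(ε - Cε²) ≤ (1-θ) m(ε)`, which contradicts `c ε^D ≤ m(ε)`.
-/

open MeasureTheory Metric Matrix
open scoped Matrix.Norms.L2Operator

namespace Pool.Agent.Lib.MP_ef6aaf_al

/-- sum of the coefficients -/
noncomputable def aug (p : LaurentPolynomial ℤ) : ℤ := LaurentPolynomial.eval₂ (RingHom.id ℤ) 1 p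

/-! ## Fox derivatives and Laurent polynomials -/

/-- [fox] Existence of the Fox derivative. Proof: let `Φ : FreeGroup (Fin 2) →* Equiv.Perm ℤ[T;T⁻¹]` be the homomorphism with `Φ(of 0) = (p ↦ 1 + p)` (`Equiv.addLeft 1`) and `Φ(of 1) = (p ↦ T 1 * p)` (multiplication by a unit). Put
`F g = Φ(g)(0)`. By `FreeGroup.induction_on`, `Φ(g)(p) = F g + T (e1 g) * p`; so `F (g h) = Φ(g)(Φ(h)(0)) = F g + T (e1 g) * F h`. (`e1 (of 0) = 0`, `e1 (of 1) = 1`; `e1` is additive.) -/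
def S_fox : Prop := ∃ F, IsFox F

/-- [foxp] (take `S_evmul` as hypothesis; `e0 = ev ![1,0]`, `e1 = ev ![0,1]`.) Proof: `F 1 = F 1 + F 1`; `0 = F (g⁻¹ g) = F g⁻¹ + T (e1 g⁻¹) F g`; `aug` is a ring homomorphism with `aug (T k) = 1`, so `aug ∘ F` is additive with the
values `1, 0` at the letters (`FreeGroup.induction_on`). -/
def S_foxp : Prop := ∀ F : FreeGroup (Fin 2) → LaurentPolynomial ℤ, IsFox F → F 1 = 0 ∧
  (∀ g, F g⁻¹ = - (LaurentPolynomial.T (- e1 g) * F g)) ∧ (∀ g, aug (F g) = e0 g) ∧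
  (∀ p q, aug (p + q) = aug p + aug q) ∧ (∀ p q, aug (p * q) = aug p * aug q) ∧ ∀ k : ℤ, aug (LaurentPolynomial.T k) = 1 ∧
  aug (- LaurentPolynomial.T k) = -1

/-- [lau] Proof: `aug p * aug q = 0` so `aug q = 0`, so `q = (T 1 - 1) q'` (`q = ∑ q_k T^k = ∑ q_k (T^k - 1)` and `T 1 - 1 ∣ T k - 1` for `k : ℤ`). So `(T 1 - 1) (p q' - 1) = 0`, and `ℤ[T;T⁻¹]` has no zero divisors, so `p` is a unit. The units of
`ℤ[T;T⁻¹]` are `± T^k`: multiply `p`, `q'` by powers of `T` to get polynomials `P, Q'` with `P Q' = X^N`; `P` divides a power of the prime `X`, so `P = c X^j` with `c` a unit of `ℤ` (`dvd_prime_pow`). -/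
def S_lau : Prop := ∀ p q : LaurentPolynomial ℤ, p * q = LaurentPolynomial.T 1 - 1 → aug p ≠ 0 →
  ∃ k : ℤ, p = LaurentPolynomial.T k ∨ p = - LaurentPolynomial.T k

/-- [aff] Proof: let `R = ℤ[T;T⁻¹] ⧸ Ideal.span {F w}` and `Φ : FreeGroup (Fin 2) →* Equiv.Perm R` with `Φ(of 0) = (r ↦ 1 + r)`, `Φ(of 1) = (r ↦ T r)`. By induction `Φ(g)(r) = [F g] + [T^{e1 g}] r`. `Φ(w) = 1` because `[F w] = 0`, `e1 w = 0`; so `Φ` descends to
`Ψ : G w →* Equiv.Perm R`. For `g` in the commutator subgroup of the free group `e1 g = 0`, so the images under `Ψ` of elements of `commutator (G w)` are translations, which commute. Hence `Ψ` is trivial on `⁅commutator, commutator⁆ = commutator (G w)`. The element `y x y⁻¹ x⁻¹` acts as `r ↦ T - 1 + r`; so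
`T - 1 = 0` in `R`, i.e. `F w ∣ T 1 - 1`. -/
def S_aff : Prop := ∀ (w : FreeGroup (Fin 2)) (F : FreeGroup (Fin 2) → LaurentPolynomial ℤ), IsFox F → e1 w = 0 →
  ⁅commutator (G w), commutator (G w)⁆ = commutator (G w) → ∃ q, F w * q = LaurentPolynomial.T 1 - 1

/-- [alex] The Alexander polynomial is a unit (take `S_foxp`, `S_lau`, `S_aff` as hypotheses). Proof: `aug (F w) = e0 w ≠ 0`. -/
def S_alex : Prop := ∀ (w : FreeGroup (Fin 2)) (F : FreeGroup (Fin 2) → LaurentPolynomial ℤ), IsFox F → e1 w = 0 → e0 w ≠ 0 →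
  ⁅commutator (G w), commutator (G w)⁆ = commutator (G w) → ∃ k : ℤ, F w = LaurentPolynomial.T k ∨ F w = - LaurentPolynomial.T k

/-- [act] Proof: `Finsupp.sum_add_index'`, `Finsupp.sum_neg_index`; for `T k * p`: by induction on `p` or `LaurentPolynomial.induction_on'` (both sides are additive in `p`, and for `p = C a * T j` both sides are `a • y^{k+j} h y^{-k-j}`). The norm: `CStarRing.norm_coe_unitary_mul`, `CStarRing.norm_mul_coe_unitary`.
The bound: `‖act y p h‖ ≤ ∑ |p_k| ‖h‖`. -/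
def S_act : Prop := ∀ (n : ℕ), (∀ (y : U n) p q h, act y (p + q) h = act y p h + act y q h) ∧
  (∀ (y : U n) p h, act y (-p) h = - act y p h) ∧
  (∀ (y : U n) (k : ℤ) p h, act y (LaurentPolynomial.T k * p) h =
    ((y ^ k : U n) : Mn n) * act y p h * ((y ^ (-k) : U n) : Mn n)) ∧
  (∀ (y : U n) (k : ℤ) h, ‖act y (LaurentPolynomial.T k) h‖ = ‖h‖) ∧
  ∀ p, ∃ C : ℝ, 0 < C ∧ ∀ (y : U n) h, ‖act y p h‖ ≤ C * ‖h‖

/-- [expd] Expansion of a word near the pairs `(1, y)` (take `S_foxp`, `S_act`, `S_evmul` as hypotheses). Write `X = q 0 - 1`, `y = q 1`, `A_g = act y (F g) X`.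
Proof: `FreeGroup.induction_on`. `1`: exact. Letter `0`: exact (`act y 1 X = X`, `T 0 = 1`). Letter `1`: exact. Inverse of letter `0`: `F = -1`, `x⁻¹ - (1 - X) = x⁻¹ (x - 1)²`. Inverse of letter `1`: exact.
Product: `(1 + A_g) y^a (1 + A_h) y^b = (1 + A_g + y^a A_h y^{-a} + A_g y^a A_h y^{-a}) y^{a+b}` and `A_{gh} = A_g + y^a A_h y^{-a}`; the last term is `O(‖X‖²)`. For the error: `‖u v - u' v'‖ ≤ ‖u - u'‖ ‖v‖ + ‖u'‖ ‖v - v'‖` with `u, v` unitary (norm `≤ 1`) and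
`u' = (1 + A_g) y^a` of norm `≤ 1 + C ‖X‖ ≤ 1 + 2 C`. -/
def S_expd : Prop := ∀ (n : ℕ) (F : FreeGroup (Fin 2) → LaurentPolynomial ℤ), IsFox F → ∀ g : FreeGroup (Fin 2),
  ∃ C : ℝ, 0 < C ∧ ∀ q : Fin 2 → U n,
    ‖((FreeGroup.lift q g : U n) : Mn n) - (1 + act (q 1) (F g) ((q 0 : Mn n) - 1)) * ((q 1 ^ e1 g : U n) : Mn n)‖ ≤
      C * ‖(q 0 : Mn n) - 1‖ ^ 2

/-- [near1] (take `S_act`, `S_expd` as hypotheses). Proof: `[expd]` for `w`: `(q 1)^0 = 1`, `‖act y (± T^k) X‖ = ‖X‖`. -/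
def S_near1 : Prop := ∀ (n : ℕ) (w : FreeGroup (Fin 2)) (F : FreeGroup (Fin 2) → LaurentPolynomial ℤ), IsFox F → e1 w = 0 →
  (∃ k : ℤ, F w = LaurentPolynomial.T k ∨ F w = - LaurentPolynomial.T k) →
  ∃ C : ℝ, 0 < C ∧ ∀ q : Fin 2 → U n,
    ‖((FreeGroup.lift q w : U n) : Mn n) - 1‖ ≤ ‖(q 0 : Mn n) - 1‖ + C * ‖(q 0 : Mn n) - 1‖ ^ 2

/-! ## The mass at the identity -/

/-- [dec] Proof: we may decrease `ε₀` so that `C ε₀ ≤ 1/2`. Let `ε_{j+1} = ε_j - C ε_j²`; then `0 < ε_{j+1} ≤ ε_j ≤ ε₀`, `1/ε_{j+1} ≤ 1/ε_j + 2C` (`1/(1-t) ≤ 1 + 2t` for `0 ≤ t ≤ 1/2`), so `1/ε_j ≤ 1/ε₀ + 2Cj`. And `0 < m(ε_j) ≤ (1-θ)^j` (so `θ < 1`). So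
`c ≤ (1/ε₀ + 2Cj)^D (1-θ)^j` for all `j`, and the right side tends to `0`. -/
def S_dec : Prop := ∀ (m : ℝ → ℝ) (D : ℕ) (c C θ ε₀ : ℝ), 0 < c → 0 < C → 0 < θ → 0 < ε₀ →
  (∀ ε, 0 < ε → ε ≤ ε₀ → c * ε ^ D ≤ m ε) → (∀ ε, 0 < ε → ε ≤ ε₀ → m ε ≤ 1) →
  (∀ ε, 0 < ε → ε ≤ ε₀ → m (ε - C * ε ^ 2) ≤ (1 - θ) * m ε) → False

/-- [mass] (take `S_exmu`, `S_up`, `S_low`, `S_core`, `S_linalg`, `S_theta`, `S_dec` as hypotheses).
Proof: `μ` from `[exmu]` (with `p = False`), `e = ![0,1]`, `ev e w = e1 w = 0`. `[theta]`; `[linalg]` with `V = Hn n × ℝ`, `K = range Θ`: `d + 1 = D + 1`, `d + k = finrank (range Θ) = D + 1 - 1` (rank-nullity), so `d = D`, `k = 0`. `[core]`: `μ²(Near w f e (C s²)) ≥ c s^{2D}` for small `s` (cancel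
`s^{2D}`), i.e. `μ²(Near w f e ε) ≥ c' ε^D` for small `ε`. Let `m(ε) = (μ (closedBall 1 ε)).toReal`. As `w` is Haar, `m(ε) = μ²{q : ‖w(q) - 1‖ ≤ ε}`. This set contains `Near w f e ε` and, with the constant `C₁` of the hypothesis, `{q : ‖q 0 - 1‖ ≤ ε - C₁ ε²}`
(`r = ε - C₁ε² ≤ ε` so `r + C₁ r² ≤ ε`), of measure `m(ε - C₁ε²)` (`Measure.pi`, evaluation at `0` is measure preserving), and these two sets are disjoint if `ε < ‖f 0 - 1‖/2` (`e 0 = 0`, `f 0 ≠ 1`). So `m(ε - C₁ε²) ≤ m(ε) - c'ε^D ≤ (1-θ) m(ε)` with `θ = c'/C₂`, `m(ε) ≤ C₂ ε^D` (`[up]`). `[dec]`, with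
`[low]`. -/
def S_mass : Prop := ∀ (n : ℕ) (w : FreeGroup (Fin 2)) (f : Fin 2 → U n), 1 ≤ n → HaarOn w n →
  (∃ C : ℝ, 0 < C ∧ ∀ q : Fin 2 → U n,
    ‖((FreeGroup.lift q w : U n) : Mn n) - 1‖ ≤ ‖(q 0 : Mn n) - 1‖ + C * ‖(q 0 : Mn n) - 1‖ ^ 2) →
  FreeGroup.lift f w = 1 → e1 w = 0 → f 0 ≠ 1 → Module.finrank ℝ (Z0 f) = 1 → False

/-! ## Representations -/

/-- [irrz] Schur's lemma. Proof: `1 ∈ Z0 f`. A Hermitian `a` commuting with `f 0`, `f 1` commutes with all `lift f g`; it has an eigenvalue (`Module.End.exists_eigenvalue`, `n ≥ 1`), the eigenspace is invariant, so it is everything: `a` is a scalar matrix, and Hermitian, so a real scalar.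
(`finrank_eq_one_iff'`.) -/
def S_irrz : Prop := ∀ (n : ℕ) (f : Fin 2 → U n), 1 ≤ n → IsIrr (FreeGroup.lift f : FreeGroup (Fin 2) →* U n) →
  Module.finrank ℝ (Z0 f) = 1

/-- [abirr] Proof: suppose `k ≥ 1`. For every `g` the eigenspace of `ρ g` for some eigenvalue is invariant (everything commutes), so it is everything: all `ρ g` are scalar. So every subspace is invariant, and a line in `ℂ^k` is `⊤`: `k = 1`. -/
def S_abirr : Prop := ∀ (Γ : Type) [Group Γ] (k : ℕ) (ρ : Γ →* U k), IsIrr ρ → (∀ g h, ρ g * ρ h = ρ h * ρ g) → k ≤ 1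

/-- [ne1] (take `S_abirr` as hypothesis). Proof: if `f 0 = 1` then `lift f g` is a power of `f 1` for all `g` (`FreeGroup.induction_on`), so `lift f` is abelian, `n ≤ 1`. -/
def S_ne1 : Prop := ∀ (n : ℕ) (f : Fin 2 → U n), 2 ≤ n → IsIrr (FreeGroup.lift f : FreeGroup (Fin 2) →* U n) → f 0 ≠ 1

/-- [nonab] (take `S_onb` as hypothesis). Proof: call an invariant subspace `W` bad if `ρ(g) ρ(h) x ≠ ρ(h) ρ(g) x` for some `g, h` and `x ∈ W`. The whole space is bad; let `W` be bad of minimal dimension; `J, ρ'` from `[onb]`. `ρ'` is not abelian (`J ρ'(g) ρ'(h) = ρ(g) ρ(h) J`), so `m ≥ 2` (`1 × 1`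
matrices commute). `ρ'` is irreducible: if `W'` is invariant under `ρ'`, `W' ≠ 0, ⊤`, let `W''` be its orthogonal complement (`star x ⬝ᵥ y = 0`), invariant because `ρ'(g)ᴴ = ρ'(g⁻¹)`; `J W'` and `J W''` are invariant under `ρ` of dimension `< finrank W`, hence not bad, and `W = J W' + J W''` is not bad. -/
def S_nonab : Prop := ∀ (Γ : Type) [Group Γ] (k : ℕ) (ρ : Γ →* U k) (g h : Γ), ρ g * ρ h ≠ ρ h * ρ g →
  ∃ (m : ℕ) (ρ' : Γ →* U m), 2 ≤ m ∧ m ≤ k ∧ IsIrr ρ'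

/-- [cay] Proof: permutation matrices of the left regular representation, numbering `Q ≃ Fin (Nat.card Q)`. -/
def S_cay : Prop := ∀ (Q : Type) [Group Q] [Finite Q], ∃ ρ : Q →* U (Nat.card Q), Function.Injective ρ

/-- [cyc] (take `S_evmul` as hypothesis). Proof: let `x, y` be the images of the letters in `Q`; as `Q` is commutative the image of `g` is `x^{e0 g} y^{e1 g}` (`FreeGroup.induction_on`). For `g = w`: `x^{±1} = 1`, so `x = 1` and every element of `Q` is a power of `y`. -/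
def S_cyc : Prop := ∀ (w : FreeGroup (Fin 2)), e1 w = 0 → (e0 w = 1 ∨ e0 w = -1) → ∀ (Q : Type) [Group Q] (f : G w →* Q),
  Function.Surjective f → (∀ a b : Q, a * b = b * a) → IsCyclic Q

/-! ## Nielsen transformations -/

/-- `w'` is obtained from `w` by Nielsen transformations, as far as needed here -/
def Nls (w w' : FreeGroup (Fin 2)) : Prop := (∀ n, HaarOn w n → HaarOn w' n) ∧ Nonempty (G w ≃* G w')

/-- [move] (take `S_evmul` as hypothesis). Proof: `w' = φ(w)` for the automorphism `φ` of the free group: `x ↦ y, y ↦ x` resp. `x ↦ y⁻¹ x, y ↦ y` resp. `x ↦ y x, y ↦ y`. `φ` is an automorphism (give the inverse; `FreeGroup.lift`) and maps the normal closure of `w` onto that of `φ w`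
(`QuotientGroup.congr`). `lift q (φ w) = lift (i ↦ lift q (φ (of i))) w`, and `q ↦ (i ↦ lift q (φ (of i)))` preserves the product measure: it is `(q 1, q 0)` resp. `((q 1)⁻¹ q 0, q 1)` resp. `(q 1 * q 0, q 1)`; use `measurePreserving_finTwoArrow` (or `MeasurableEquiv.finTwoArrow`) and
`measurePreserving_prod_mul`, `measurePreserving_prod_inv_mul` with the factors swapped (only left invariance is needed). -/
def S_move : Prop := ∀ w : FreeGroup (Fin 2), (∃ w', Nls w w' ∧ e0 w' = e1 w ∧ e1 w' = e0 w) ∧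
  (∃ w', Nls w w' ∧ e0 w' = e0 w ∧ e1 w' = e1 w - e0 w) ∧ (∃ w', Nls w w' ∧ e0 w' = e0 w ∧ e1 w' = e1 w + e0 w)

/-- [norm] (take `S_move` as hypothesis). Proof: Euclid's algorithm: strong induction on `|e0 w| + |e1 w|`. `Nls` is reflexive and transitive. If `e1 w = 0` take `w' = w`; if `e0 w = 0` swap. If both are not zero and `|e0 w| ≤ |e1 w|`, adding or subtracting `e0 w` makes `|e1 w|` smaller; otherwise swap and do the same. -/
def S_norm : Prop := ∀ w : FreeGroup (Fin 2), ¬ (e0 w = 0 ∧ e1 w = 0) → ∃ w', Nls w w' ∧ e1 w' = 0 ∧ e0 w' ≠ 0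

/-! ## The theorem -/

/-- [loc] Local form (take `S_expo`, `S_norm`, `S_fox`, `S_alex`, `S_near1`, `S_mass`, `S_irrz`, `S_ne1` as hypotheses).
Proof: suppose `ρ` is irreducible. `[expo]`, `[norm]`: `w'` and `θ : G w ≃* G w'`; the commutator subgroup of `G w'` is perfect too, `ρ ∘ θ.symm` is irreducible. Let `f` be the images of the letters, `lift f g = ρ (θ.symm (mk g))`, so `lift f` is irreducible and `lift f w' = 1`. `[fox]`, `[alex]`, `[near1]`, `[irrz]`,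
`[ne1]`, `[mass]` for `w'`. -/
def S_loc : Prop := ∀ (w : FreeGroup (Fin 2)) (n : ℕ), 2 ≤ n → ⁅commutator (G w), commutator (G w)⁆ = commutator (G w) →
  HaarOn w n → ∀ ρ : G w →* U n, ¬ IsIrr ρ

/-- Third theorem: perfect commutator subgroup. -/
def Main3 : Prop := ∀ (w : FreeGroup (Fin 2)) (N : ℕ), ⁅commutator (G w), commutator (G w)⁆ = commutator (G w) →
  (∀ n, 2 ≤ n → n ≤ N → HaarOn w n) → AbelianReps w N

/-- [m3] Assembly (take `S_loc`, `S_nonab`, `S_cay`, `S_expo`, `S_norm`, `S_fox`, `S_foxp`, `S_alex`, `S_cyc` as hypotheses). Proof: (1) if `ρ g ρ h ≠ ρ h ρ g`, `[nonab]` gives an irreducible representation of dimension `m`, `2 ≤ m ≤ k ≤ N`, against `[loc]`. (2) If `N ≤ 1`, `Q` is trivial. Otherwise `Q` is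
commutative by (1) for the composition of `f` with `[cay]`. With `w'`, `θ` from `[norm]` (`[expo]` for `n = 2`), `F w' = ± T^k` by `[alex]`, so `e0 w' = aug (F w') = ± 1`, and `[cyc]` for `f ∘ θ.symm`. -/
def S_m3 : Prop := Main3

end Pool.Agent.Lib.MP_ef6aaf_al
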